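import Mathlib

set_option autoImplicit false

/-!
Absolute extensors for metric spaces (as subsets of a Euclidean space): convex closed sets,
gluing, and unions of families of convex sets.
-/

namespace Pool.Agent.N360.JN

open Set Topology

variable {m : ℕ}

/-- Euclidean space -/
abbrev E (m : ℕ) := EuclideanSpace ℝ (Fin m)

/-- `A` is an absolute extensor for metric spaces -/
def AE (A : Set (E m)) : Prop :=
  ∀ (Y : Type) [MetricSpace Y] (C : Set Y) (f : Y → E m), IsClosed C → ContinuousOn f C →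
    (∀ y ∈ C, f y ∈ A) →
    ∃ g : Y → E m, Continuous g ∧ (∀ y, g y ∈ A) ∧ ∀ y ∈ C, g y = f y

/-- nearest point retraction onto a closed convex set -/
theorem exists_retract {A : Set (E m)} (hc : IsClosed A) (hconv : Convex ℝ A)
    (hne : A.Nonempty) : ∃ r : E m → E m, Continuous r ∧ (∀ x, r x ∈ A) ∧ ∀ x ∈ A, r x = x := by
  have h := fun u => exists_norm_eq_iInf_of_complete_convex hne hc.isComplete hconv u
  choose r hrA hr using h
  have hvar : ∀ u, ∀ w ∈ A, inner ℝ (u - r u) (w - r u) ≤ 0 := fun u =>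
    (norm_eq_iInf_iff_real_inner_le_zero hconv (hrA u)).1 (hr u)
  have hlip : ∀ u v, ‖r u - r v‖ ≤ ‖u - v‖ := by
    intro u v
    have h1 := hvar u (r v) (hrA v)
    have h2 := hvar v (r u) (hrA u)
    have h3 : inner ℝ (r u - r v) (r u - r v) ≤ inner ℝ (u - v) (r u - r v) := by
      have e1 : inner ℝ (u - r u) (r v - r u) = - inner ℝ (u - r u) (r u - r v) := by
        rw [← inner_neg_right, neg_sub]
      rw [e1] at h1
      have e2 : inner ℝ (u - v) (r u - r v) - inner ℝ (r u - r v) (r u - r v)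
          = inner ℝ (u - r u) (r u - r v) - inner ℝ (v - r v) (r u - r v) := by
        rw [← inner_sub_left, ← inner_sub_left]
        congr 1
        abel
      linarith
    have h4 : inner ℝ (u - v) (r u - r v) ≤ ‖u - v‖ * ‖r u - r v‖ := real_inner_le_norm _ _
    rw [real_inner_self_eq_norm_mul_norm] at h3
    by_contra hcon
    push Not at hcon
    have h5 : 0 ≤ ‖u - v‖ := norm_nonneg _
    have h6 : 0 < ‖r u - r v‖ := lt_of_le_of_lt h5 hcon
    nlinarith
  refine ⟨r, ?_, hrA, ?_⟩
  · have : LipschitzWith 1 r := by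
      refine LipschitzWith.of_dist_le_mul ?_
      intro u v
      rw [dist_eq_norm, dist_eq_norm, NNReal.coe_one, one_mul]
      exact hlip u v
    exact this.continuous
  · intro x hx
    have h1 := hvar x x hx
    have h2 : inner ℝ (x - r x) (x - r x) ≤ 0 := h1
    have h3 : x - r x = 0 := by
      rw [real_inner_self_eq_norm_mul_norm] at h2
      have : ‖x - r x‖ = 0 := by nlinarith [norm_nonneg (x - r x)]
      exact norm_eq_zero.1 this
    exact (sub_eq_zero.1 h3).symm

theorem ae_convex {A : Set (E m)} (hc : IsClosed A) (hconv : Convex ℝ A)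
    (hne : A.Nonempty) : AE A := by
  obtain ⟨r, hr, hrA, hrid⟩ := exists_retract hc hconv hne
  intro Y _ C f hC hf hfA
  let f' : C(C, E m) := ⟨fun y => f y, hf.domRestrict⟩
  obtain ⟨g, hg⟩ := ContinuousMap.exists_restrict_eq hC f'
  refine ⟨fun y => r (g y), hr.comp g.continuous, fun y => hrA _, ?_⟩
  intro y hy
  have h1 : g y = f y := by
    have := congrArg (fun h : C(C, E m) => h ⟨y, hy⟩) hg
    exact this
  show r (g y) = f y
  rw [h1]
  exact hrid _ (hfA y hy)

open Classical in
theorem ae_union {A B : Set (E m)} (hAc : IsClosed A) (hBc : IsClosed B) (hA : AE A) (hB : AE B)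
    (hAB : AE (A ∩ B)) : AE (A ∪ B) := by
  intro Y _ C f hC hf hfA
  let CA := C ∩ f ⁻¹' A
  let CB := C ∩ f ⁻¹' B
  have hCA : IsClosed CA := hf.preimage_isClosed_of_isClosed hC hAc
  have hCB : IsClosed CB := hf.preimage_isClosed_of_isClosed hC hBc
  let YA : Set Y := {y | Metric.infEDist y CA ≤ Metric.infEDist y CB}
  let YB : Set Y := {y | Metric.infEDist y CB ≤ Metric.infEDist y CA}
  have hYA : IsClosed YA := isClosed_le Metric.continuous_infEDist Metric.continuous_infEDist
  have hYB : IsClosed YB := isClosed_le Metric.continuous_infEDist Metric.continuous_infEDist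
  have hcov : ∀ y, y ∈ YA ∨ y ∈ YB := fun y => le_total (Metric.infEDist y CA) (Metric.infEDist y CB)
  have hCcov : ∀ y ∈ C, y ∈ CA ∨ y ∈ CB := by
    intro y hy
    rcases hfA y hy with h | h
    · exact Or.inl ⟨hy, h⟩
    · exact Or.inr ⟨hy, h⟩
  have hA1 : ∀ y ∈ C, y ∈ YA → y ∈ CA := by
    intro y hy hyA
    rcases hCcov y hy with h | h
    · exact h
    · have h0 : Metric.infEDist y CB = 0 := Metric.infEDist_zero_of_mem h
      have h1 : Metric.infEDist y CA ≤ 0 := by
        have := hyA
        change Metric.infEDist y CA ≤ Metric.infEDist y CB at this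
        rwa [h0] at this
      exact (Metric.mem_iff_infEDist_zero_of_closed hCA).2 (le_antisymm h1 bot_le)
  have hB1 : ∀ y ∈ C, y ∈ YB → y ∈ CB := by
    intro y hy hyA
    rcases hCcov y hy with h | h
    · have h0 : Metric.infEDist y CA = 0 := Metric.infEDist_zero_of_mem h
      have h1 : Metric.infEDist y CB ≤ 0 := by
        have := hyA
        change Metric.infEDist y CB ≤ Metric.infEDist y CA at this
        rwa [h0] at this
      exact (Metric.mem_iff_infEDist_zero_of_closed hCB).2 (le_antisymm h1 bot_le)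
    · exact h
  -- extend over the whole space from the intersection
  obtain ⟨g0, hg0, hg0m, hg0e⟩ := hAB Y (CA ∩ CB) f (hCA.inter hCB)
    (hf.mono (fun y hy => hy.1.1)) (fun y hy => ⟨hy.1.2, hy.2.2⟩)
  have step : ∀ (D : Set (E m)) (CD YD : Set Y), AE D → IsClosed CD → IsClosed YD →
      ContinuousOn f CD → (∀ y ∈ CD, f y ∈ D) → (∀ y, g0 y ∈ D) →
      (∀ y ∈ CD, y ∈ YD → f y = g0 y) →
      ∃ g : Y → E m, Continuous g ∧ (∀ y, g y ∈ D) ∧ (∀ y ∈ CD, g y = f y) ∧
        ∀ y ∈ YD, g y = g0 y := by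
    intro D CD YD hD hCD hYD hfc hfD hgD hagree
    let h : Y → E m := fun y => if y ∈ CD then f y else g0 y
    have h1 : ∀ y ∈ CD, h y = f y := fun y hy => if_pos hy
    have h2 : ∀ y ∈ YD, h y = g0 y := by
      intro y hy
      by_cases hc : y ∈ CD
      · rw [h1 y hc, hagree y hc hy]
      · exact if_neg hc
    have hcont : ContinuousOn h (CD ∪ YD) :=
      (hfc.congr h1).union_of_isClosed (hg0.continuousOn.congr h2) hCD hYD
    obtain ⟨g, hg, hgm, hge⟩ := hD Y (CD ∪ YD) h (hCD.union hYD) hcont (by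
      intro y hy
      rcases hy with hy | hy
      · rw [h1 y hy]; exact hfD y hy
      · rw [h2 y hy]; exact hgD y)
    exact ⟨g, hg, hgm, fun y hy => (hge y (Or.inl hy)).trans (h1 y hy),
      fun y hy => (hge y (Or.inr hy)).trans (h2 y hy)⟩
  obtain ⟨gA, hgA, hgAm, hgAe, hgA0⟩ := step A CA (YA ∩ YB) hA hCA (hYA.inter hYB)
    (hf.mono (fun y hy => hy.1)) (fun y hy => hy.2) (fun y => (hg0m y).1) (by
      intro y hy hyy
      exact (hg0e y ⟨hy, hB1 y hy.1 hyy.2⟩).symm)
  obtain ⟨gB, hgB, hgBm, hgBe, hgB0⟩ := step B CB (YA ∩ YB) hB hCB (hYA.inter hYB)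
    (hf.mono (fun y hy => hy.1)) (fun y hy => hy.2) (fun y => (hg0m y).2) (by
      intro y hy hyy
      exact (hg0e y ⟨hA1 y hy.1 hyy.1, hy⟩).symm)
  let g : Y → E m := fun y => if y ∈ YA then gA y else gB y
  have k1 : ∀ y ∈ YA, g y = gA y := fun y hy => if_pos hy
  have k2 : ∀ y ∈ YB, g y = gB y := by
    intro y hy
    by_cases hc : y ∈ YA
    · rw [k1 y hc, hgA0 y ⟨hc, hy⟩, hgB0 y ⟨hc, hy⟩]
    · exact if_neg hc
  refine ⟨g, ?_, ?_, ?_⟩
  · rw [← continuousOn_univ]
    have : (univ : Set Y) = YA ∪ YB := by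
      ext y
      simp only [mem_univ, mem_union, true_iff]
      exact hcov y
    rw [this]
    exact (hgA.continuousOn.congr k1).union_of_isClosed (hgB.continuousOn.congr k2) hYA hYB
  · intro y
    rcases hcov y with h | h
    · rw [k1 y h]; exact Or.inl (hgAm y)
    · rw [k2 y h]; exact Or.inr (hgBm y)
  · intro y hy
    rcases hcov y with h | h
    · rw [k1 y h]; exact hgAe y (hA1 y hy h)
    · rw [k2 y h]; exact hgBe y (hB1 y hy h)

/-- a union of convex closed sets all of whose nonempty intersections meet a fixed member -/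
theorem ae_family {ι : Type} (s : Finset ι) : ∀ (K : ι → Set (E m)) (K0 : Set (E m)),
    (∀ i ∈ s, IsClosed (K i) ∧ Convex ℝ (K i)) → IsClosed K0 → Convex ℝ K0 → K0.Nonempty →
    (∀ T : Finset ι, T ⊆ s → T.Nonempty → (⋂ i ∈ T, K i).Nonempty →
      (K0 ∩ ⋂ i ∈ T, K i).Nonempty) →
    AE (K0 ∪ ⋃ i ∈ s, K i) := by
  classical
  induction s using Finset.induction_on with
  | empty =>
    intro K K0 _ h0 h1 h2 _
    simpa using ae_convex h0 h1 h2
  | insert a s ha ih =>
    intro K K0 hK h0 h1 h2 hT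
    have hKs : ∀ i ∈ s, IsClosed (K i) ∧ Convex ℝ (K i) := fun i hi =>
      hK i (Finset.mem_insert_of_mem hi)
    have hKa := hK a (Finset.mem_insert_self _ _)
    have hclosed : IsClosed (K0 ∪ ⋃ i ∈ s, K i) :=
      h0.union (isClosed_biUnion_finset (fun i hi => (hKs i hi).1))
    have hI := ih K K0 hKs h0 h1 h2 (fun T hTs => hT T (hTs.trans (Finset.subset_insert _ _)))
    have heq : (K0 ∪ ⋃ i ∈ insert a s, K i) = (K0 ∪ ⋃ i ∈ s, K i) ∪ K a := by
      rw [Finset.set_biUnion_insert]
      ext x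
      simp only [mem_union]
      tauto
    rw [heq]
    by_cases hne : (K a).Nonempty
    · refine ae_union hclosed hKa.1 hI (ae_convex hKa.1 hKa.2 hne) ?_
      have heq2 : (K0 ∪ ⋃ i ∈ s, K i) ∩ K a = (K0 ∩ K a) ∪ ⋃ i ∈ s, (K i ∩ K a) := by
        rw [union_inter_distrib_right, iUnion₂_inter]
      rw [heq2]
      refine ih (fun i => K i ∩ K a) (K0 ∩ K a) ?_ (h0.inter hKa.1) (h1.inter hKa.2) ?_ ?_
      · intro i hi
        exact ⟨(hKs i hi).1.inter hKa.1, (hKs i hi).2.inter hKa.2⟩
      · have := hT {a} (by simp) (by simp) (by simpa using hne)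
        simpa using this
      · intro T hTs hTne hTn
        have h3 : (⋂ i ∈ insert a T, K i).Nonempty := by
          obtain ⟨x, hx⟩ := hTn
          refine ⟨x, ?_⟩
          simp only [mem_iInter, mem_inter_iff] at hx ⊢
          intro i hi
          rcases Finset.mem_insert.1 hi with rfl | hi
          · obtain ⟨j, hj⟩ := hTne
            exact (hx j hj).2
          · exact (hx i hi).1
        obtain ⟨x, hx0, hx⟩ := hT (insert a T) (Finset.insert_subset_insert _ hTs)
          (Finset.insert_nonempty _ _) h3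
        simp only [mem_iInter] at hx
        refine ⟨x, ⟨hx0, hx a (Finset.mem_insert_self _ _)⟩, ?_⟩
        simp only [mem_iInter, mem_inter_iff]
        intro i hi
        exact ⟨hx i (Finset.mem_insert_of_mem hi), hx a (Finset.mem_insert_self _ _)⟩
    · rw [not_nonempty_iff_eq_empty.1 hne, union_empty]
      exact hI

open Classical in
theorem ae_contractible {A : Set (E m)} (hA : AE A) (hne : A.Nonempty) : ContractibleSpace A := by
  obtain ⟨p, hp⟩ := hne
  rw [contractible_iff_id_nullhomotopic]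
  refine ⟨⟨p, hp⟩, ?_⟩
  let C : Set (unitInterval × A) := {z | z.1 = 0} ∪ {z | z.1 = 1}
  let f : unitInterval × A → E m := fun z => if z.1 = 0 then (z.2 : E m) else p
  have hc0 : IsClosed {z : unitInterval × A | z.1 = 0} :=
    isClosed_eq continuous_fst continuous_const
  have hc1 : IsClosed {z : unitInterval × A | z.1 = 1} :=
    isClosed_eq continuous_fst continuous_const
  have e0 : ∀ z ∈ {z : unitInterval × A | z.1 = 0}, f z = (z.2 : E m) := fun z hz => if_pos hz
  have e1 : ∀ z ∈ {z : unitInterval × A | z.1 = 1}, f z = p := by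
    intro z hz
    have : ¬ z.1 = 0 := by
      rw [show z.1 = 1 from hz]
      exact one_ne_zero
    exact if_neg this
  obtain ⟨g, hg, hgm, hge⟩ := hA (unitInterval × A) C f (hc0.union hc1)
    (((continuous_subtype_val.comp continuous_snd).continuousOn.congr e0).union_of_isClosed
      (continuousOn_const.congr e1) hc0 hc1) (by
      intro z hz
      rcases hz with hz | hz
      · rw [e0 z hz]; exact z.2.2
      · rw [e1 z hz]; exact hp)
  refine ⟨⟨⟨fun z => ⟨g z, hgm z⟩, hg.subtype_mk _⟩, ?_, ?_⟩⟩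
  · intro x
    apply Subtype.ext
    show g (0, x) = x
    rw [hge (0, x) (Or.inl rfl)]
    exact e0 (0, x) rfl
  · intro x
    apply Subtype.ext
    show g (1, x) = p
    rw [hge (1, x) (Or.inr rfl)]
    exact e1 (1, x) rfl

end Pool.Agent.N360.JN
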