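import Pool.Agent.N360.JN.Ex

set_option autoImplicit false

/-!
Combinatorics of zero sets.
-/

namespace Pool.Agent.N360.JN

open Finset

theorem Dg.le1 {n i j : ℕ} (h : Dg n i j) : 1 ≤ i := h.1
theorem Dg.le2 {n i j : ℕ} (h : Dg n i j) : i + 2 ≤ n := by
  obtain ⟨h1, h2, h3 | h3⟩ := h <;> omega
theorem Dg.le3 {n i j : ℕ} (h : Dg n i j) : 3 ≤ j := by
  obtain ⟨h1, h2, h3 | h3⟩ := h <;> omega
theorem Dg.le4 {n i j : ℕ} (h : Dg n i j) : j ≤ n := h.2.1
theorem Dg.lt {n i j : ℕ} (h : Dg n i j) : i < j := by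
  obtain ⟨h1, h2, h3 | h3⟩ := h <;> omega

/-- admissible indices -/
def Adm (σ : ℕ → Prop) (p q : ℕ) : Prop :=
  p + 3 ≤ q ∨ (q ≤ p + 1 ∧ ∀ k, q ≤ k + 1 → k ≤ p + 1 → σ k)

theorem all_of_s3 {n : ℕ} {a b : ℕ → ℝ} (hn : 4 ≤ n) (h : Pos n a b) (σ : ℕ → Prop)
    (hσ : ∀ i j, Dg n i j → a i = 0 → b j = 0 → σ i ∧ σ j) (h0 : a 1 + b 3 = 0) :
    ∀ r, 1 ≤ r → r ≤ n → σ r := by
  obtain ⟨h1, h2⟩ := h.s3 hn h0
  intro r hr1 hr2
  by_cases e1 : r = 1
  · subst e1
    exact (hσ 1 n ⟨le_rfl, le_rfl, Or.inl (by omega)⟩ (h1 1 le_rfl (by omega))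
      (h2 n (by omega) le_rfl)).1
  by_cases e2 : r = n
  · rw [e2]
    exact (hσ 1 n ⟨le_rfl, le_rfl, Or.inl (by omega)⟩ (h1 1 le_rfl (by omega))
      (h2 n (by omega) le_rfl)).2
  by_cases e3 : r = n - 1
  · have h3 := (hσ (n - 2) (n - 1) ⟨by omega, by omega, Or.inr ⟨by omega, by omega, by omega⟩⟩
      (h1 _ (by omega) (by omega)) (h2 _ (by omega) (by omega))).2
    rw [e3]
    exact h3
  · exact (hσ r (r + 1) ⟨by omega, by omega, Or.inr ⟨by omega, by omega, by omega⟩⟩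
      (h1 _ (by omega) (by omega)) (h2 _ (by omega) (by omega))).1

theorem cover {n : ℕ} {a b : ℕ → ℝ} (hn : 4 ≤ n) (h : Pos n a b) (σ : ℕ → Prop)
    (hσ : ∀ i j, Dg n i j → a i = 0 → b j = 0 → σ i ∧ σ j)
    (hmiss : ∃ r, 1 ≤ r ∧ r ≤ n ∧ ¬ σ r) (hne : ∃ i j, Dg n i j ∧ a i = 0 ∧ b j = 0) :
    ∃ p q, Adm σ p q ∧ (∃ j, Dg n p j ∧ a p = 0 ∧ b j = 0) ∧
      (∃ i, Dg n i q ∧ a i = 0 ∧ b q = 0) ∧
      ∀ i j, Dg n i j → a i = 0 → b j = 0 → InZ σ p q i j := by
  classical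
  obtain ⟨i0, j0, hij0, hi0, hj0⟩ := hne
  have hS : ((range (n + 1)).filter (fun i => ∃ j, Dg n i j ∧ a i = 0 ∧ b j = 0)).Nonempty :=
    ⟨i0, mem_filter.2 ⟨mem_range.2 (by have := hij0.le2; omega), j0, hij0, hi0, hj0⟩⟩
  have hT : ((range (n + 1)).filter (fun j => ∃ i, Dg n i j ∧ a i = 0 ∧ b j = 0)).Nonempty :=
    ⟨j0, mem_filter.2 ⟨mem_range.2 (by have := hij0.le4; omega), i0, hij0, hi0, hj0⟩⟩
  set p := ((range (n + 1)).filter (fun i => ∃ j, Dg n i j ∧ a i = 0 ∧ b j = 0)).max' hS with hp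
  set q := ((range (n + 1)).filter (fun j => ∃ i, Dg n i j ∧ a i = 0 ∧ b j = 0)).min' hT with hq
  have hpm := (mem_filter.1 (max'_mem _ hS)).2
  have hqm := (mem_filter.1 (min'_mem _ hT)).2
  rw [← hp] at hpm
  rw [← hq] at hqm
  have hpmax : ∀ i j, Dg n i j → a i = 0 → b j = 0 → i ≤ p := by
    intro i j h1 h2 h3
    exact le_max' _ _ (mem_filter.2 ⟨mem_range.2 (by have := h1.le2; omega), j, h1, h2, h3⟩)
  have hqmin : ∀ i j, Dg n i j → a i = 0 → b j = 0 → q ≤ j := by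
    intro i j h1 h2 h3
    exact min'_le _ _ (mem_filter.2 ⟨mem_range.2 (by have := h1.le4; omega), i, h1, h2, h3⟩)
  clear_value p q
  obtain ⟨jp, hpj, hap, hbjp⟩ := hpm
  obtain ⟨iq, hqi, haiq, hbq⟩ := hqm
  have hp1 := hpj.le1
  have hp2 := hpj.le2
  have hq1 := hqi.le3
  have hq2 := hqi.le4
  -- two elements at distance two
  have hX : ∀ k, a k = 0 → b (k + 2) = 0 → 1 ≤ k → k + 2 ≤ n →
      (2 ≤ k ∧ k + 3 ≤ n) ∧ a (k + 1) = 0 ∧ b (k + 1) = 0 := by
    intro k h1 h2 h3 h4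
    obtain ⟨r, hr1, hr2, hr3⟩ := hmiss
    have hk : 2 ≤ k ∧ k + 3 ≤ n := by
      by_contra hcon
      rcases Nat.lt_or_ge k 2 with h5 | h5
      · have : k = 1 := by omega
        subst this
        exact hr3 (all_of_s3 hn h σ hσ (by rw [h1, show b 3 = 0 from h2, add_zero]) r hr1 hr2)
      · have e : k = n - 2 := by omega
        have e2 : k + 2 = n := by omega
        rw [e2] at h2
        rw [e] at h1
        exact hr3 (all_of_s3 hn h σ hσ (by rw [h.wrap, h1, h2, add_zero]) r hr1 hr2)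
    exact ⟨hk, h.s2 hk.1 hk.2 h1 h2⟩
  -- `q - 2` is not a first coordinate and `p + 2` is not a second coordinate
  have hq3 : ∀ k, k + 2 = q → 1 ≤ k → a k ≠ 0 := by
    intro k h1 h2 h3
    subst h1
    obtain ⟨⟨h4, h5⟩, h6, h7⟩ := hX k h3 hbq h2 hq2
    have := hqmin k (k + 1) ⟨by omega, by omega, Or.inr ⟨rfl, h4, by omega⟩⟩ h3 h7
    omega
  have hp3 : b (p + 2) ≠ 0 := by
    intro h3
    obtain ⟨⟨h4, h5⟩, h6, h7⟩ := hX p hap h3 hp1 hp2
    have := hpmax (p + 1) (p + 2) ⟨by omega, by omega, Or.inr ⟨rfl, by omega, by omega⟩⟩ h6 h3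
    omega
  refine ⟨p, q, ?_, ⟨jp, hpj, hap, hbjp⟩, ⟨iq, hqi, haiq, hbq⟩, ?_⟩
  · rcases Nat.lt_trichotomy q (p + 2) with h1 | h1 | h1
    · right
      refine ⟨by omega, ?_⟩
      intro k hk1 hk2
      by_cases hk : k ≤ p
      · obtain ⟨h3, h4⟩ := h.s1 (i := p) (j := q) hq1 (by omega) hp2 hap hbq k hk1 hk
        exact (hσ k (k + 1) ⟨by omega, by omega, Or.inr ⟨rfl, by omega, by omega⟩⟩ h3 h4).1
      · have : k = p + 1 := by omega
        subst this
        obtain ⟨h3, h4⟩ := h.s1 (i := p) (j := q) hq1 (by omega) hp2 hap hbq p (by omega) le_rfl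
        exact (hσ p (p + 1) ⟨by omega, by omega, Or.inr ⟨rfl, by omega, by omega⟩⟩ h3 h4).2
    · exact absurd (h1 ▸ hbq) hp3
    · left
      omega
  · intro i j hij hai hbj
    have hs := hσ i j hij hai hbj
    refine ⟨hpmax i j hij hai hbj, hqmin i j hij hai hbj, ?_, ?_⟩
    · intro h1
      exact ⟨fun h2 => hq3 i h2 hij.le1 hai, hs.1⟩
    · intro h1
      exact ⟨fun h2 => hp3 (h2 ▸ hbj), hs.2⟩

/-- minimality: two nested zero sets with the same label coincide -/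
theorem minimal {n : ℕ} {a b a' b' : ℕ → ℝ} (h : Pos n a b) (h' : Pos n a' b')
    (hsub : ∀ i j, Dg n i j → a i = 0 → b j = 0 → a' i = 0 ∧ b' j = 0)
    (hlab : ∀ i j, Dg n i j → a' i = 0 → b' j = 0 → ∀ r, r = i ∨ r = j →
      (∃ y, Dg n r y ∧ a r = 0 ∧ b y = 0) ∨ (∃ x, Dg n x r ∧ a x = 0 ∧ b r = 0)) :
    ∀ i j, Dg n i j → a' i = 0 → b' j = 0 → a i = 0 ∧ b j = 0 := by
  -- descending argument
  have hdesc : ∀ i, 3 ≤ i → i + 2 ≤ n → a' i = 0 → a i ≠ 0 →
      (∃ x, Dg n x i ∧ a x = 0 ∧ b i = 0) → False := by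
    intro i
    induction i with
    | zero => intro h3; omega
    | succ m ih =>
      intro h3 hn ha' ha hx
      obtain ⟨x, hx, hax, hbi⟩ := hx
      have hb' : b' (m + 1) = 0 := (hsub x (m + 1) hx hax hbi).2
      obtain ⟨p1, p2⟩ := h'.s1 (i := m + 1) (j := m + 1) h3 (by omega) hn ha' hb' m (by omega)
        (by omega)
      obtain ⟨p3, p4⟩ := h'.s1 (i := m + 1) (j := m + 1) h3 (by omega) hn ha' hb' (m + 1)
        (by omega) (by omega)
      have l1 := hlab (m + 1) (m + 2) ⟨by omega, by omega, Or.inr ⟨rfl, by omega, by omega⟩⟩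
        p3 p4 (m + 2) (Or.inr rfl)
      have l2 := hlab m (m + 1) ⟨by omega, by omega, Or.inr ⟨rfl, by omega, by omega⟩⟩
        p1 p2 m (Or.inl rfl)
      have hbn : b (m + 2) = 0 := by
        rcases l1 with ⟨y, hy, h5, h6⟩ | ⟨y, hy, h5, h6⟩
        · exfalso
          have := h.s1 (i := m + 2) (j := m + 1) h3 (by omega) hy.le2 h5 hbi (m + 1) (by omega)
            (by omega)
          exact ha this.1
        · exact h6
      have ham : a m ≠ 0 := by
        intro h5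
        exact ha (h.s2 (k := m) (by omega) (by omega) h5 hbn).1
      rcases l2 with ⟨y, hy, h5, h6⟩ | ⟨y, hy, h5, h6⟩
      · exact ham h5
      · by_cases hm : m = 2
        · subst hm
          have := hy.le3
          omega
        · exact ih (by omega) (by omega) p1 ham ⟨y, hy, h5, h6⟩
  have hasc : ∀ d j, j + d + 2 = n → 3 ≤ j → b' j = 0 → b j ≠ 0 →
      (∃ y, Dg n j y ∧ a j = 0 ∧ b y = 0) → False := by
    intro d
    induction d with
    | zero =>
      intro j hjn h3 hb' hb hy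
      obtain ⟨y, hy, haj, hby⟩ := hy
      have ha' : a' j = 0 := (hsub j y hy haj hby).1
      obtain ⟨p1, p2⟩ := h'.s1 (i := j) (j := j) h3 (by omega) (by omega) ha' hb' (j - 1)
        (by omega) (by omega)
      obtain ⟨p3, p4⟩ := h'.s1 (i := j) (j := j) h3 (by omega) (by omega) ha' hb' j
        (by omega) (by omega)
      have e1 : j - 1 + 1 = j := by omega
      rw [e1] at p2
      have l1 := hlab (j - 1) j ⟨by omega, by omega, Or.inr ⟨by omega, by omega, by omega⟩⟩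
        p1 p2 (j - 1) (Or.inl rfl)
      have l2 := hlab j (j + 1) ⟨by omega, by omega, Or.inr ⟨rfl, by omega, by omega⟩⟩
        p3 p4 (j + 1) (Or.inr rfl)
      have haj1 : a (j - 1) = 0 := by
        rcases l1 with ⟨y, hy, h5, h6⟩ | ⟨y, hy, h5, h6⟩
        · exact h5
        · exfalso
          have := h.s1 (i := j) (j := j - 1) hy.le3 (by omega) (by omega) haj h6 (j - 1)
            (by omega) (by omega)
          rw [e1] at this
          exact hb this.2
      have hbj1 : b (j + 1) ≠ 0 := by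
        intro h5
        have e2 : j - 1 + 2 = j + 1 := by omega
        have := (h.s2 (k := j - 1) (by omega) (by omega) haj1 (by rw [e2]; exact h5)).2
        rw [e1] at this
        exact hb this
      rcases l2 with ⟨y, hy, h5, h6⟩ | ⟨y, hy, h5, h6⟩
      · have := hy.le2
        omega
      · exact hbj1 h6
    | succ d ih =>
      intro j hjn h3 hb' hb hy
      obtain ⟨y, hy, haj, hby⟩ := hy
      have ha' : a' j = 0 := (hsub j y hy haj hby).1
      obtain ⟨p1, p2⟩ := h'.s1 (i := j) (j := j) h3 (by omega) (by omega) ha' hb' (j - 1)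
        (by omega) (by omega)
      obtain ⟨p3, p4⟩ := h'.s1 (i := j) (j := j) h3 (by omega) (by omega) ha' hb' j
        (by omega) (by omega)
      have e1 : j - 1 + 1 = j := by omega
      rw [e1] at p2
      have l1 := hlab (j - 1) j ⟨by omega, by omega, Or.inr ⟨by omega, by omega, by omega⟩⟩
        p1 p2 (j - 1) (Or.inl rfl)
      have l2 := hlab j (j + 1) ⟨by omega, by omega, Or.inr ⟨rfl, by omega, by omega⟩⟩
        p3 p4 (j + 1) (Or.inr rfl)
      have haj1 : a (j - 1) = 0 := by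
        rcases l1 with ⟨y, hy, h5, h6⟩ | ⟨y, hy, h5, h6⟩
        · exact h5
        · exfalso
          have := h.s1 (i := j) (j := j - 1) hy.le3 (by omega) (by omega) haj h6 (j - 1)
            (by omega) (by omega)
          rw [e1] at this
          exact hb this.2
      have hbj1 : b (j + 1) ≠ 0 := by
        intro h5
        have e2 : j - 1 + 2 = j + 1 := by omega
        have := (h.s2 (k := j - 1) (by omega) (by omega) haj1 (by rw [e2]; exact h5)).2
        rw [e1] at this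
        exact hb this
      rcases l2 with ⟨y, hy, h5, h6⟩ | ⟨y, hy, h5, h6⟩
      · exact ih (j + 1) (by omega) (by omega) p4 hbj1 ⟨y, hy, h5, h6⟩
      · exact hbj1 h6
  intro i j hij hai hbj
  constructor
  · by_contra hcon
    rcases hlab i j hij hai hbj i (Or.inl rfl) with ⟨y, hy, h5, h6⟩ | ⟨y, hy, h5, h6⟩
    · exact hcon h5
    · exact hdesc i hy.le3 hij.le2 hai hcon ⟨y, hy, h5, h6⟩
  · by_contra hcon
    rcases hlab i j hij hai hbj j (Or.inr rfl) with ⟨y, hy, h5, h6⟩ | ⟨y, hy, h5, h6⟩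
    · obtain ⟨d, hd⟩ : ∃ d, j + d + 2 = n := ⟨n - j - 2, by have := hy.le2; omega⟩
      exact hasc d j hd hij.le3 hbj hcon ⟨y, hy, h5, h6⟩
    · exact hcon h6

end Pool.Agent.N360.JN
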