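import Pool.Agent.N360.JN.Geo

set_option autoImplicit false

/-!
Contractibility of the unions of faces with bounded label.
-/

namespace Pool.Agent.N360.JN

open Set

/-- union of the faces all of whose vertices `(i, j)` satisfy `σ i` and `σ j` -/
def Xs (n : ℕ) (σ : ℕ → Prop) : Set (E (n - 3)) :=
  {x | ∃ (l : StrongDual ℝ (E (n - 3))) (c : ℝ), (∀ i j, Dg n i j → l (vv n i j) ≤ c) ∧
    x ∈ PP n ∧ l x = c ∧ ∀ i j, Dg n i j → l (vv n i j) = c → σ i ∧ σ j}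

theorem InZ.label {σ : ℕ → Prop} {p q i j : ℕ} (hA : Adm σ p q) (h : InZ σ p q i j) :
    σ i ∧ σ j := by
  obtain ⟨h1, h2, h3, h4⟩ := h
  rcases hA with hA | ⟨hA, hr⟩
  · exact ⟨(h3 (by omega)).2, (h4 (by omega)).2⟩
  · constructor
    · by_cases h5 : i + 2 ≤ q
      · exact (h3 h5).2
      · exact hr i (by omega) (by omega)
    · by_cases h5 : p + 2 ≤ j
      · exact (h4 h5).2
      · exact hr j (by omega) (by omega)

theorem Kf_sub_Xs {n : ℕ} (hn : 4 ≤ n) {σ : ℕ → Prop} {p q : ℕ} (hv : Val n p q)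
    (hl : ∀ i j, Dg n i j → InZ σ p q i j → σ i ∧ σ j) : Kf n σ p q ⊆ Xs n σ := by
  intro x hx
  obtain ⟨l, c, h1, h2, h3⟩ := Kf_spec hn σ hv
  rw [h2] at hx
  exact ⟨l, c, h1, hx.1, hx.2, fun i j hij h => hl i j hij ((h3 i j hij).1 h)⟩

theorem cover' {n : ℕ} (hn : 4 ≤ n) {σ : ℕ → Prop} (hmiss : ∃ r, 1 ≤ r ∧ r ≤ n ∧ ¬ σ r)
    {l : StrongDual ℝ (E (n - 3))} {c : ℝ} (h : ∀ i j, Dg n i j → l (vv n i j) ≤ c)
    {x : E (n - 3)} (hx : x ∈ PP n) (hlx : l x = c)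
    (hσ : ∀ i j, Dg n i j → l (vv n i j) = c → σ i ∧ σ j) :
    ∃ p q, Val n p q ∧ Adm σ p q ∧ x ∈ Kf n σ p q ∧ (∃ j, Dg n p j ∧ l (vv n p j) = c) ∧
      (∃ i, Dg n i q ∧ l (vv n i q) = c) := by
  obtain ⟨T, hTW, ⟨y, hy⟩, -, hT⟩ := exists_support hx
  obtain ⟨i0, j0, hij0, rfl⟩ := hTW hy
  have h0 := hT l c (by rintro _ ⟨i, j, hij, rfl⟩; exact h i j hij) hlx _ hy
  obtain ⟨a, b, hpos, hz⟩ := pos_of_face hn h hij0 h0
  obtain ⟨p, q, hA, ⟨j1, hj1, hj1'⟩, ⟨i1, hi1, hi1'⟩, hZ⟩ := cover hn hpos σ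
    (fun i j hij h1 h2 => hσ i j hij ((hz i j hij).2 ⟨h1, h2⟩)) hmiss
    ⟨i0, j0, hij0, (hz i0 j0 hij0).1 h0⟩
  have hv : Val n p q := ⟨hj1.le1, hj1.le2, hi1.le3, hi1.le4⟩
  refine ⟨p, q, hv, hA, ?_, ⟨j1, hj1, (hz _ _ hj1).2 hj1'⟩, ⟨i1, hi1, (hz _ _ hi1).2 hi1'⟩⟩
  obtain ⟨l', c', h1, h2, h3⟩ := Kf_spec hn σ hv
  rw [h2]
  refine ⟨hx, face_sub h ?_ x hx hlx⟩
  intro i j hij h4
  obtain ⟨h5, h6⟩ := (hz i j hij).1 h4
  exact (h3 i j hij).2 (hZ i j hij h5 h6)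

theorem ae_fam {n : ℕ} (hn : 4 ≤ n) (σ : ℕ → Prop) (s : Finset (ℕ × ℕ))
    (hs : ∀ t ∈ s, Val n t.1 t.2) (p0 q0 : ℕ) (h0 : (p0, q0) ∈ s)
    (hne0 : ∃ i j, Dg n i j ∧ InZ σ p0 q0 i j)
    (hmap : ∀ i j, Dg n i j → (∃ t ∈ s, InZ σ t.1 t.2 i j) →
      ∃ i' j', Dg n i' j' ∧ InZ σ p0 q0 i' j' ∧
        ∀ t ∈ s, InZ σ t.1 t.2 i j → InZ σ t.1 t.2 i' j') :
    AE (⋃ t ∈ s, Kf n σ t.1 t.2) := by
  have hK0 := Kf_spec hn σ (hs _ h0)
  have h1 := ae_family s (fun t => Kf n σ t.1 t.2) (Kf n σ p0 q0)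
    (fun t ht => ⟨(Kf_spec hn σ (hs t ht)).closed, (Kf_spec hn σ (hs t ht)).convex⟩)
    hK0.closed hK0.convex
    (by
      obtain ⟨i, j, hij, hz⟩ := hne0
      exact ⟨_, (hK0.vmem hij).2 hz⟩)
    (by
      rintro T hT ⟨t0, ht0⟩ ⟨x, hx⟩
      simp only [mem_iInter] at hx
      have hxP : x ∈ PP n := by
        obtain ⟨l, c, -, hK, -⟩ := Kf_spec hn σ (hs t0 (hT ht0))
        have := hx t0 ht0
        rw [hK] at this
        exact this.1
      obtain ⟨i, j, hij, hz⟩ := common (T : Set (ℕ × ℕ)) (fun t => t.1) (fun t => t.2)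
        (fun t => Kf n σ t.1 t.2) (fun t ht => Kf_spec hn σ (hs t (hT ht))) hxP
        (fun t ht => hx t ht)
      obtain ⟨i', j', hij', hz0, hz'⟩ := hmap i j hij ⟨t0, hT ht0, hz t0 ht0⟩
      refine ⟨vv n i' j', (hK0.vmem hij').2 hz0, ?_⟩
      simp only [mem_iInter]
      intro t ht
      exact ((Kf_spec hn σ (hs t (hT ht))).vmem hij').2 (hz' t (hT ht) (hz t ht)))
  have h2 : Kf n σ p0 q0 ∪ ⋃ t ∈ s, Kf n σ t.1 t.2 = ⋃ t ∈ s, Kf n σ t.1 t.2 := by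
    apply union_eq_self_of_subset_left
    intro x hx
    exact mem_biUnion (x := (p0, q0)) h0 hx
  rwa [h2] at h1

theorem closed_fam {n : ℕ} (hn : 4 ≤ n) (σ : ℕ → Prop) (s : Finset (ℕ × ℕ))
    (hs : ∀ t ∈ s, Val n t.1 t.2) : IsClosed (⋃ t ∈ s, Kf n σ t.1 t.2) :=
  isClosed_biUnion_finset (fun t ht => (Kf_spec hn σ (hs t ht)).closed)

/-- the case of a missing index between two present ones -/
theorem contr_mid {n : ℕ} (hn : 4 ≤ n) {σ : ℕ → Prop} {m' c m : ℕ} (hm' : 1 ≤ m') (hmn : m ≤ n)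
    (h1 : m' < c) (h2 : c < m) (hσm' : σ m') (hσm : σ m) (hc : ¬ σ c)
    (hmin : ∀ r, 1 ≤ r → r ≤ n → σ r → m' ≤ r) (hmax : ∀ r, 1 ≤ r → r ≤ n → σ r → r ≤ m)
    (hne : (Xs n σ).Nonempty) : ContractibleSpace (Xs n σ) := by
  classical
  have hmiss : ∃ r, 1 ≤ r ∧ r ≤ n ∧ ¬ σ r := ⟨c, by omega, by omega, hc⟩
  let s : Finset (ℕ × ℕ) := (Finset.range (n + 1) ×ˢ Finset.range (n + 1)).filter
    (fun t => Val n t.1 t.2 ∧ Adm σ t.1 t.2)
  have hs : ∀ t, t ∈ s ↔ (Val n t.1 t.2 ∧ Adm σ t.1 t.2) := by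
    intro t
    simp only [s, Finset.mem_filter, Finset.mem_product, Finset.mem_range]
    constructor
    · exact fun h => h.2
    · intro h
      refine ⟨?_, h⟩
      obtain ⟨e1, e2, e3, e4⟩ := h.1
      omega
  -- a vertex
  obtain ⟨i1, j1, hij1, hi1, hj1⟩ : ∃ i j, Dg n i j ∧ σ i ∧ σ j := by
    obtain ⟨x, l, c', e1, e2, e3, e4⟩ := hne
    obtain ⟨p, q, -, -, -, ⟨j, hj, hj'⟩, -⟩ := cover' hn hmiss e1 e2 e3 e4
    exact ⟨p, j, hj, e4 p j hj hj'⟩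
  have hone : m' + 3 ≤ m := by
    have a1 := hmin i1 hij1.le1 (by have := hij1.le2; omega) hi1
    have a2 := hmax j1 (by have := hij1.le3; omega) hij1.le4 hj1
    have a3 : i1 ≠ c := fun h => hc (h ▸ hi1)
    have a4 : j1 ≠ c := fun h => hc (h ▸ hj1)
    obtain ⟨-, -, h3 | ⟨h3, -⟩⟩ := hij1 <;> omega
  -- left part
  have hL : ∀ i j, Dg n i j → σ i → σ j → i < c → i + 3 ≤ m := by
    intro i j hij hi hj hic
    have a2 := hmax j (by have := hij.le3; omega) hij.le4 hj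
    have a4 : j ≠ c := fun h => hc (h ▸ hj)
    obtain ⟨-, -, h3 | ⟨h3, -⟩⟩ := hij <;> omega
  have hR : ∀ i j, Dg n i j → σ i → σ j → c < j → m' + 3 ≤ j := by
    intro i j hij hi hj hjc
    have a2 := hmin i hij.le1 (by have := hij.le2; omega) hi
    have a4 : i ≠ c := fun h => hc (h ▸ hi)
    obtain ⟨-, -, h3 | ⟨h3, -⟩⟩ := hij <;> omega
  have hAL : ∀ p q, Adm σ p q → p < c → ∀ j, q ≤ j → j ≤ m → p + 3 ≤ m := by
    intro p q hA hpc j hj hjm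
    rcases hA with hA | ⟨hA, hr⟩
    · omega
    · have : ¬ (q ≤ c + 1 ∧ c ≤ p + 1) := fun h => hc (hr c h.1 h.2)
      omega
  have hAR : ∀ p q, Adm σ p q → c < q → ∀ i, i ≤ p → m' ≤ i → m' + 3 ≤ q := by
    intro p q hA hpc i hi him
    rcases hA with hA | ⟨hA, hr⟩
    · omega
    · have : ¬ (q ≤ c + 1 ∧ c ≤ p + 1) := fun h => hc (hr c h.1 h.2)
      omega
  set p0 := min (m - 3) (c - 1) with hp0
  have hp0a : p0 + 3 ≤ m := by omega
  have hp0b : p0 < c := by omega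
  have hp0c : m' ≤ p0 := by omega
  set q0 := max (m' + 3) (c + 1) with hq0
  have hq0a : m' + 3 ≤ q0 := by omega
  have hq0b : c < q0 := by omega
  have hq0c : q0 ≤ m := by omega
  have hv0 : Val n p0 m := ⟨by omega, by omega, by omega, by omega⟩
  have hv1 : Val n m' q0 := ⟨by omega, by omega, by omega, by omega⟩
  have hZ0 : ∀ i, 1 ≤ i → i ≤ p0 → σ i → Dg n i m ∧ InZ σ p0 m i m := by
    intro i h3 h4 h5
    refine ⟨⟨h3, hmn, Or.inl (by omega)⟩, h4, le_rfl, ?_, ?_⟩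
    · intro _; exact ⟨by omega, h5⟩
    · intro _; exact ⟨by omega, hσm⟩
  have hZ1 : ∀ j, j ≤ n → q0 ≤ j → σ j → Dg n m' j ∧ InZ σ m' q0 m' j := by
    intro j h3 h4 h5
    refine ⟨⟨hm', h3, Or.inl (by omega)⟩, le_rfl, h4, ?_, ?_⟩
    · intro _; exact ⟨by omega, hσm'⟩
    · intro _; exact ⟨by omega, h5⟩
  have hmapL : ∀ t ∈ s, t.1 < c → ∀ i j, Dg n i j → InZ σ t.1 t.2 i j →
      InZ σ t.1 t.2 i m ∧ i ≤ p0 ∧ σ i := by
    intro t ht htc i j hij hz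
    obtain ⟨-, hA⟩ := (hs t).1 ht
    obtain ⟨hi, hj⟩ := hz.label hA
    obtain ⟨z1, z2, z3, z4⟩ := hz
    have hjm := hmax j (by have := hij.le3; omega) hij.le4 hj
    have e1 := hAL t.1 t.2 hA htc j z2 hjm
    have e2 := hL i j hij hi hj (by omega)
    exact ⟨⟨z1, by omega, z3, fun _ => ⟨by omega, hσm⟩⟩, by omega, hi⟩
  have hmapR : ∀ t ∈ s, c < t.2 → ∀ i j, Dg n i j → InZ σ t.1 t.2 i j →
      InZ σ t.1 t.2 m' j ∧ q0 ≤ j ∧ σ j := by
    intro t ht htc i j hij hz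
    obtain ⟨-, hA⟩ := (hs t).1 ht
    obtain ⟨hi, hj⟩ := hz.label hA
    obtain ⟨z1, z2, z3, z4⟩ := hz
    have him := hmin i hij.le1 (by have := hij.le2; omega) hi
    have e1 := hAR t.1 t.2 hA htc i z1 him
    have e2 := hR i j hij hi hj (by omega)
    exact ⟨⟨by omega, z2, fun _ => ⟨by omega, hσm'⟩, z4⟩, by omega, hj⟩
  let sL := s.filter (fun t => t.1 < c)
  let sR := s.filter (fun t => c < t.2)
  let sM := s.filter (fun t => t.1 < c ∧ c < t.2)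
  have hsub : ∀ u : Finset (ℕ × ℕ), u ⊆ s → ∀ t ∈ u, Val n t.1 t.2 := fun u hu t ht =>
    ((hs t).1 (hu ht)).1
  have hA0 : (p0, m) ∈ s := (hs _).2 ⟨hv0, Or.inl hp0a⟩
  have hA1 : (m', q0) ∈ s := (hs _).2 ⟨hv1, Or.inl hq0a⟩
  have aeL : AE (⋃ t ∈ sL, Kf n σ t.1 t.2) := by
    refine ae_fam hn σ sL (hsub _ (Finset.filter_subset _ _)) p0 m
      (Finset.mem_filter.2 ⟨hA0, hp0b⟩) ⟨m', m, hZ0 m' hm' hp0c hσm'⟩ ?_
    rintro i j hij ⟨t, ht, hz⟩
    obtain ⟨ht1, ht2⟩ := Finset.mem_filter.1 ht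
    obtain ⟨-, e1, e2⟩ := hmapL t ht1 ht2 i j hij hz
    obtain ⟨e3, e4⟩ := hZ0 i hij.le1 e1 e2
    refine ⟨i, m, e3, e4, ?_⟩
    intro t' ht' hz'
    obtain ⟨ht1', ht2'⟩ := Finset.mem_filter.1 ht'
    exact (hmapL t' ht1' ht2' i j hij hz').1
  have aeM : AE (⋃ t ∈ sM, Kf n σ t.1 t.2) := by
    refine ae_fam hn σ sM (hsub _ (Finset.filter_subset _ _)) p0 m
      (Finset.mem_filter.2 ⟨hA0, hp0b, h2⟩) ⟨m', m, hZ0 m' hm' hp0c hσm'⟩ ?_
    rintro i j hij ⟨t, ht, hz⟩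
    obtain ⟨ht1, ht2, -⟩ := Finset.mem_filter.1 ht
    obtain ⟨-, e1, e2⟩ := hmapL t ht1 ht2 i j hij hz
    obtain ⟨e3, e4⟩ := hZ0 i hij.le1 e1 e2
    refine ⟨i, m, e3, e4, ?_⟩
    intro t' ht' hz'
    obtain ⟨ht1', ht2', -⟩ := Finset.mem_filter.1 ht'
    exact (hmapL t' ht1' ht2' i j hij hz').1
  have aeR : AE (⋃ t ∈ sR, Kf n σ t.1 t.2) := by
    refine ae_fam hn σ sR (hsub _ (Finset.filter_subset _ _)) m' q0
      (Finset.mem_filter.2 ⟨hA1, hq0b⟩) ⟨m', m, hZ1 m hmn hq0c hσm⟩ ?_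
    rintro i j hij ⟨t, ht, hz⟩
    obtain ⟨ht1, ht2⟩ := Finset.mem_filter.1 ht
    obtain ⟨-, e1, e2⟩ := hmapR t ht1 ht2 i j hij hz
    obtain ⟨e3, e4⟩ := hZ1 j hij.le4 e1 e2
    refine ⟨m', j, e3, e4, ?_⟩
    intro t' ht' hz'
    obtain ⟨ht1', ht2'⟩ := Finset.mem_filter.1 ht'
    exact (hmapR t' ht1' ht2' i j hij hz').1
  have hKX : ∀ t ∈ s, Kf n σ t.1 t.2 ⊆ Xs n σ := by
    intro t ht
    obtain ⟨hv, hA⟩ := (hs t).1 ht
    exact Kf_sub_Xs hn hv (fun i j _ hz => hz.label hA)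
  have hX : Xs n σ = (⋃ t ∈ sL, Kf n σ t.1 t.2) ∪ (⋃ t ∈ sR, Kf n σ t.1 t.2) := by
    apply Subset.antisymm
    · rintro x ⟨l, c', e1, e2, e3, e4⟩
      obtain ⟨p, q, hv, hA, hx, -, -⟩ := cover' hn hmiss e1 e2 e3 e4
      have hmem : (p, q) ∈ s := (hs _).2 ⟨hv, hA⟩
      by_cases hpc : p < c
      · left
        exact mem_biUnion (x := (p, q)) (Finset.mem_filter.2 ⟨hmem, hpc⟩) hx
      · right
        refine mem_biUnion (x := (p, q)) (Finset.mem_filter.2 ⟨hmem, ?_⟩) hx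
        show c < q
        rcases hA with hA | ⟨hA, hr⟩
        · omega
        · have : ¬ (q ≤ c + 1 ∧ c ≤ p + 1) := fun h => hc (hr c h.1 h.2)
          omega
    · rintro x (hx | hx)
      · obtain ⟨t, ht, hx⟩ := mem_iUnion₂.1 hx
        exact hKX t (Finset.mem_filter.1 ht).1 hx
      · obtain ⟨t, ht, hx⟩ := mem_iUnion₂.1 hx
        exact hKX t (Finset.mem_filter.1 ht).1 hx
  have hI : (⋃ t ∈ sL, Kf n σ t.1 t.2) ∩ (⋃ t ∈ sR, Kf n σ t.1 t.2)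
      = ⋃ t ∈ sM, Kf n σ t.1 t.2 := by
    apply Subset.antisymm
    · rintro x ⟨hx1, hx2⟩
      obtain ⟨t, ht, hx⟩ := mem_iUnion₂.1 hx1
      obtain ⟨t', ht', hx'⟩ := mem_iUnion₂.1 hx2
      obtain ⟨ht1, ht2⟩ := Finset.mem_filter.1 ht
      obtain ⟨ht1', ht2'⟩ := Finset.mem_filter.1 ht'
      obtain ⟨l, k, f1, f2, f3⟩ := Kf_spec hn σ ((hs t).1 ht1).1
      obtain ⟨l', k', f1', f2', f3'⟩ := Kf_spec hn σ ((hs t').1 ht1').1
      rw [f2] at hx
      rw [f2'] at hx'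
      have g1 : ∀ i j, Dg n i j → (l + l') (vv n i j) ≤ k + k' := fun i j hij => by
        rw [_root_.add_apply]
        exact add_le_add (f1 i j hij) (f1' i j hij)
      have g2 : (l + l') x = k + k' := by rw [_root_.add_apply, hx.2, hx'.2]
      have g3 : ∀ i j, Dg n i j → (l + l') (vv n i j) = k + k' →
          l (vv n i j) = k ∧ l' (vv n i j) = k' := by
        intro i j hij h
        rw [_root_.add_apply] at h
        have := f1 i j hij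
        have := f1' i j hij
        constructor <;> linarith
      obtain ⟨p, q, hv, hA, hxK, ⟨j, hj, hj'⟩, ⟨i, hi, hi'⟩⟩ := cover' hn hmiss g1 hx.1 g2 (by
        intro i j hij h
        exact ((f3 i j hij).1 (g3 i j hij h).1).label ((hs t).1 ht1).2)
      refine mem_biUnion (x := (p, q)) (Finset.mem_filter.2 ⟨(hs _).2 ⟨hv, hA⟩, ?_, ?_⟩) hxK
      · have := ((f3 p j hj).1 (g3 p j hj hj').1).1
        show p < c
        omega
      · have := ((f3' i q hi).1 (g3 i q hi hi').2).2.1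
        show c < q
        omega
    · intro x hx
      obtain ⟨t, ht, hx⟩ := mem_iUnion₂.1 hx
      obtain ⟨ht1, ht2, ht3⟩ := Finset.mem_filter.1 ht
      exact ⟨mem_biUnion (x := t) (Finset.mem_filter.2 ⟨ht1, ht2⟩) hx,
        mem_biUnion (x := t) (Finset.mem_filter.2 ⟨ht1, ht3⟩) hx⟩
  have hfin : AE (Xs n σ) := by
    rw [hX]
    refine ae_union (closed_fam hn σ sL (hsub _ (Finset.filter_subset _ _)))
      (closed_fam hn σ sR (hsub _ (Finset.filter_subset _ _))) aeL aeR ?_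
    rw [hI]
    exact aeM
  exact ae_contractible hfin hne

/-- star-shaped case, missing index above -/
theorem contr_top {n : ℕ} (hn : 4 ≤ n) {σ : ℕ → Prop} {m' m : ℕ} (hm' : 1 ≤ m') (hmn : m + 1 ≤ n)
    (hint : ∀ r, m' ≤ r → r ≤ m → σ r)
    (hmin : ∀ r, 1 ≤ r → r ≤ n → σ r → m' ≤ r) (hmax : ∀ r, 1 ≤ r → r ≤ n → σ r → r ≤ m)
    (hne : (Xs n σ).Nonempty) : ContractibleSpace (Xs n σ) := by
  have hmiss : ∃ r, 1 ≤ r ∧ r ≤ n ∧ ¬ σ r := by
    refine ⟨m + 1, by omega, hmn, ?_⟩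
    intro h
    have := hmax (m + 1) (by omega) hmn h
    omega
  have hgood : ∀ q, 3 ≤ q → q ≤ m → m' + 1 ≤ q →
      Kf n σ (m - 1) q ⊆ Xs n σ ∧ vv n (m - 1) m ∈ Kf n σ (m - 1) q := by
    intro q h1 h2 h3
    have hv : Val n (m - 1) q := ⟨by omega, by omega, h1, by omega⟩
    constructor
    · apply Kf_sub_Xs hn hv
      rintro i j hij ⟨z1, z2, z3, z4⟩
      constructor
      · by_cases h5 : i + 2 ≤ q
        · exact (z3 h5).2
        · exact hint i (by omega) (by omega)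
      · by_cases h5 : m - 1 + 2 ≤ j
        · exact (z4 h5).2
        · exact hint j (by omega) (by omega)
    · rw [(Kf_spec hn σ hv).vmem ⟨by omega, by omega, Or.inr ⟨by omega, by omega, by omega⟩⟩]
      exact ⟨le_rfl, h2, by omega, by omega⟩
  have hcov : ∀ x ∈ Xs n σ, ∃ q, 3 ≤ q ∧ q ≤ m ∧ m' + 1 ≤ q ∧ x ∈ Kf n σ (m - 1) q := by
    rintro x ⟨l, c', e1, e2, e3, e4⟩
    obtain ⟨p, q, hv, hA, hx, ⟨j, hj, hj'⟩, ⟨i, hi, hi'⟩⟩ := cover' hn hmiss e1 e2 e3 e4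
    have hσp := (e4 p j hj hj').1
    have hσq := (e4 i q hi hi').2
    have hpm := hmin p hv.1 (by have := hv.2.1; omega) hσp
    have hqm := hmax q (by have := hv.2.2.1; omega) hv.2.2.2 hσq
    have hv1 := hv.1
    have hv2 := hv.2.1
    have hv3 := hv.2.2.1
    rcases hA with hA | ⟨hA, hr⟩
    · refine ⟨p + 3, by omega, by omega, by omega, ?_⟩
      have hv' : Val n (m - 1) (p + 3) := ⟨by omega, by omega, by omega, by omega⟩
      refine (Kf_spec hn σ hv).sub (Kf_spec hn σ hv') ?_ hx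
      rintro i j hij ⟨z1, z2, z3, z4⟩
      have hσj := (z4 (by omega)).2
      have := hmax j (by omega) hij.le4 hσj
      exact ⟨by omega, by omega, fun _ => ⟨by omega, (z3 (by omega)).2⟩, fun h => by omega⟩
    · have hσp1 := hr (p + 1) (by omega) le_rfl
      have h5 := hmax (p + 1) (by omega) (by omega) hσp1
      have hσq1 := hr (q - 1) (by omega) (by omega)
      have h6 := hmin (q - 1) (by omega) (by omega) hσq1
      refine ⟨q, hv3, hqm, by omega, ?_⟩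
      have hv' : Val n (m - 1) q := ⟨by omega, by omega, by omega, by omega⟩
      refine (Kf_spec hn σ hv).sub (Kf_spec hn σ hv') ?_ hx
      rintro i j hij ⟨z1, z2, z3, z4⟩
      refine ⟨by omega, z2, z3, ?_⟩
      intro h
      have hσj := (z4 (by omega)).2
      have := hmax j (by omega) hij.le4 hσj
      omega
  have hstar : StarConvex ℝ (vv n (m - 1) m) (Xs n σ) := by
    rw [starConvex_iff_segment_subset]
    intro x hx
    obtain ⟨q, h1, h2, h3, h4⟩ := hcov x hx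
    obtain ⟨h5, h6⟩ := hgood q h1 h2 h3
    have hv : Val n (m - 1) q := ⟨by omega, by omega, h1, by omega⟩
    exact ((Kf_spec hn σ hv).convex.segment_subset h6 h4).trans h5
  exact hstar.contractibleSpace hne

/-- star-shaped case, missing index below -/
theorem contr_bot {n : ℕ} (hn : 4 ≤ n) {σ : ℕ → Prop} {m' m : ℕ} (hm' : 2 ≤ m') (hmn : m ≤ n)
    (hint : ∀ r, m' ≤ r → r ≤ m → σ r)
    (hmin : ∀ r, 1 ≤ r → r ≤ n → σ r → m' ≤ r) (hmax : ∀ r, 1 ≤ r → r ≤ n → σ r → r ≤ m)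
    (hne : (Xs n σ).Nonempty) : ContractibleSpace (Xs n σ) := by
  have hmiss : ∃ r, 1 ≤ r ∧ r ≤ n ∧ ¬ σ r := by
    refine ⟨1, le_rfl, by omega, ?_⟩
    intro h
    have := hmin 1 le_rfl (by omega) h
    omega
  have hgood : ∀ p, p + 2 ≤ n → m' ≤ p → p + 1 ≤ m →
      Kf n σ p (m' + 1) ⊆ Xs n σ ∧ vv n m' (m' + 1) ∈ Kf n σ p (m' + 1) := by
    intro p h1 h2 h3
    have hv : Val n p (m' + 1) := ⟨by omega, by omega, by omega, by omega⟩
    constructor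
    · apply Kf_sub_Xs hn hv
      rintro i j hij ⟨z1, z2, z3, z4⟩
      constructor
      · by_cases h5 : i + 2 ≤ m' + 1
        · exact (z3 h5).2
        · exact hint i (by omega) (by omega)
      · by_cases h5 : p + 2 ≤ j
        · exact (z4 h5).2
        · exact hint j (by omega) (by omega)
    · rw [(Kf_spec hn σ hv).vmem ⟨by omega, by omega, Or.inr ⟨by omega, by omega, by omega⟩⟩]
      exact ⟨h2, le_rfl, by omega, by omega⟩
  have hcov : ∀ x ∈ Xs n σ, ∃ p, p + 2 ≤ n ∧ m' ≤ p ∧ p + 1 ≤ m ∧ x ∈ Kf n σ p (m' + 1) := by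
    rintro x ⟨l, c', e1, e2, e3, e4⟩
    obtain ⟨p, q, hv, hA, hx, ⟨j, hj, hj'⟩, ⟨i, hi, hi'⟩⟩ := cover' hn hmiss e1 e2 e3 e4
    have hσp := (e4 p j hj hj').1
    have hσq := (e4 i q hi hi').2
    have hpm := hmin p hv.1 (by have := hv.2.1; omega) hσp
    have hqm := hmax q (by have := hv.2.2.1; omega) hv.2.2.2 hσq
    have hv1 := hv.1
    have hv2 := hv.2.1
    have hv3 := hv.2.2.1
    have hv4 := hv.2.2.2
    rcases hA with hA | ⟨hA, hr⟩
    · refine ⟨q - 3, by omega, by omega, by omega, ?_⟩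
      have hv' : Val n (q - 3) (m' + 1) := ⟨by omega, by omega, by omega, by omega⟩
      refine (Kf_spec hn σ hv).sub (Kf_spec hn σ hv') ?_ hx
      rintro i j hij ⟨z1, z2, z3, z4⟩
      have hσi := (z3 (by omega)).2
      have := hmin i hij.le1 (by have := hij.le2; omega) hσi
      exact ⟨by omega, by omega, fun h => by omega, fun _ => ⟨by omega, (z4 (by omega)).2⟩⟩
    · have hσp1 := hr (p + 1) (by omega) le_rfl
      have h5 := hmax (p + 1) (by omega) (by omega) hσp1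
      have hσq1 := hr (q - 1) (by omega) (by omega)
      have h6 := hmin (q - 1) (by omega) (by omega) hσq1
      refine ⟨p, hv2, hpm, by omega, ?_⟩
      have hv' : Val n p (m' + 1) := ⟨by omega, by omega, by omega, by omega⟩
      refine (Kf_spec hn σ hv).sub (Kf_spec hn σ hv') ?_ hx
      rintro i j hij ⟨z1, z2, z3, z4⟩
      refine ⟨z1, by omega, ?_, z4⟩
      intro h
      have hσi := (z3 (by omega)).2
      have := hmin i hij.le1 (by have := hij.le2; omega) hσi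
      omega
  have hstar : StarConvex ℝ (vv n m' (m' + 1)) (Xs n σ) := by
    rw [starConvex_iff_segment_subset]
    intro x hx
    obtain ⟨p, h1, h2, h3, h4⟩ := hcov x hx
    obtain ⟨h5, h6⟩ := hgood p h1 h2 h3
    have hv : Val n p (m' + 1) := ⟨by omega, by omega, by omega, by omega⟩
    exact ((Kf_spec hn σ hv).convex.segment_subset h6 h4).trans h5
  exact hstar.contractibleSpace hne

theorem xs_contr {n : ℕ} (hn : 4 ≤ n) {σ : ℕ → Prop} (hmiss : ∃ r, 1 ≤ r ∧ r ≤ n ∧ ¬ σ r)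
    (hne : (Xs n σ).Nonempty) : ContractibleSpace (Xs n σ) := by
  classical
  obtain ⟨i1, j1, hij1, hi1, hj1⟩ : ∃ i j, Dg n i j ∧ σ i ∧ σ j := by
    obtain ⟨x, l, c', e1, e2, e3, e4⟩ := hne
    obtain ⟨p, q, -, -, -, ⟨j, hj, hj'⟩, -⟩ := cover' hn hmiss e1 e2 e3 e4
    exact ⟨p, j, hj, e4 p j hj hj'⟩
  have hS : ((Finset.Icc 1 n).filter σ).Nonempty :=
    ⟨i1, Finset.mem_filter.2 ⟨Finset.mem_Icc.2 ⟨hij1.le1, by have := hij1.le2; omega⟩, hi1⟩⟩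
  set m := ((Finset.Icc 1 n).filter σ).max' hS with hm
  set m' := ((Finset.Icc 1 n).filter σ).min' hS with hm'
  have k1 := Finset.mem_filter.1 (Finset.max'_mem _ hS)
  have k2 := Finset.mem_filter.1 (Finset.min'_mem _ hS)
  rw [← hm] at k1
  rw [← hm'] at k2
  have hmax : ∀ r, 1 ≤ r → r ≤ n → σ r → r ≤ m := fun r e1 e2 e3 =>
    Finset.le_max' _ _ (Finset.mem_filter.2 ⟨Finset.mem_Icc.2 ⟨e1, e2⟩, e3⟩)
  have hmin : ∀ r, 1 ≤ r → r ≤ n → σ r → m' ≤ r := fun r e1 e2 e3 =>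
    Finset.min'_le _ _ (Finset.mem_filter.2 ⟨Finset.mem_Icc.2 ⟨e1, e2⟩, e3⟩)
  clear_value m m'
  have k3 := Finset.mem_Icc.1 k1.1
  have k4 := Finset.mem_Icc.1 k2.1
  by_cases hc : ∃ c, m' < c ∧ c < m ∧ ¬ σ c
  · obtain ⟨c, h1, h2, h3⟩ := hc
    exact contr_mid hn k4.1 k3.2 h1 h2 k2.2 k1.2 h3 hmin hmax hne
  · have hint : ∀ r, m' ≤ r → r ≤ m → σ r := by
      intro r h1 h2
      by_contra h3
      by_cases h4 : r = m'
      · exact h3 (h4 ▸ k2.2)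
      by_cases h5 : r = m
      · exact h3 (h5 ▸ k1.2)
      exact hc ⟨r, by omega, by omega, h3⟩
    by_cases h6 : m + 1 ≤ n
    · exact contr_top hn k4.1 h6 hint hmin hmax hne
    · obtain ⟨r, h7, h8, h9⟩ := hmiss
      have h10 : 2 ≤ m' := by
        by_contra h11
        exact h9 (hint r (by omega) (by omega))
      exact contr_bot hn h10 k3.2 hint hmin hmax hne

end Pool.Agent.N360.JN
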