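import Pool.Agent.N360.JN.Seq

set_option autoImplicit false

/-!
Explicit functionals.
-/

namespace Pool.Agent.N360.JN

open Finset

/-- building block -/
noncomputable def U (a j : ℕ) : ℝ :=
  if j = a + 1 then rho a else if j ≤ a then rho a - rho (a - 1) else 0

/-- building block -/
noncomputable def V (b i : ℕ) : ℝ :=
  if i + 1 = b then 1 / rho (b - 2) else if b ≤ i then 1 / rho (b - 2) - 1 / rho (b - 1) else 0

/-- indicator -/
noncomputable def ind (i a : ℕ) : ℝ := if i = a then 1 else 0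

theorem rho_lt {a : ℕ} (ha : 1 ≤ a) : rho (a - 1) < rho a := by
  obtain ⟨k, rfl⟩ : ∃ k, a = k + 1 := ⟨a - 1, by omega⟩
  rw [Nat.add_sub_cancel, rho_succ]
  have := rho_pos k
  linarith

theorem inv_lt {b : ℕ} (hb : 3 ≤ b) : 1 / rho (b - 1) < 1 / rho (b - 2) := by
  obtain ⟨k, rfl⟩ : ∃ k, b = k + 2 := ⟨b - 2, by omega⟩
  have e : k + 2 - 1 = k + 1 := by omega
  rw [Nat.add_sub_cancel, e]
  apply one_div_lt_one_div_of_lt (rho_pos k)
  rw [rho_succ]
  have := rho_pos k
  linarith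

theorem U_nonneg {a : ℕ} (ha : 1 ≤ a) (j : ℕ) : 0 ≤ U a j := by
  unfold U
  have h1 := rho_pos a
  have h2 := rho_lt ha
  split_ifs <;> linarith

theorem U_zero {a : ℕ} (ha : 1 ≤ a) (j : ℕ) : U a j = 0 ↔ a + 2 ≤ j := by
  unfold U
  have h1 := rho_pos a
  have h2 := rho_lt ha
  constructor
  · intro h
    split_ifs at h with h3 h4
    · linarith
    · linarith
    · omega
  · intro h
    rw [if_neg (by omega), if_neg (by omega)]

theorem V_nonneg {b : ℕ} (hb : 3 ≤ b) (i : ℕ) : 0 ≤ V b i := by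
  unfold V
  have h1 := rho_pos (b - 2)
  have h2 := inv_lt hb
  have h3 : 0 < 1 / rho (b - 2) := by positivity
  split_ifs <;> linarith

theorem V_zero {b : ℕ} (hb : 3 ≤ b) (i : ℕ) : V b i = 0 ↔ i + 2 ≤ b := by
  unfold V
  have h1 := rho_pos (b - 2)
  have h2 := inv_lt hb
  have h3 : 0 < 1 / rho (b - 2) := by positivity
  constructor
  · intro h
    split_ifs at h with h4 h5
    · linarith
    · linarith
    · omega
  · intro h
    rw [if_neg (by omega), if_neg (by omega)]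

theorem ind_nonneg (i a : ℕ) : 0 ≤ ind i a := by unfold ind; split_ifs <;> norm_num

theorem ind_zero (i a : ℕ) : ind i a = 0 ↔ i ≠ a := by
  unfold ind
  split_ifs with h <;> simp [h]

theorem U_step {a k : ℕ} (ha : 1 ≤ a) :
    U a (k + 2) - U a (k + 1) = rho k * (ind (k + 1) a - ind k a) := by
  unfold U ind
  rcases Nat.lt_trichotomy (k + 1) a with h | h | h
  · rw [if_neg (by omega), if_pos (by omega), if_neg (by omega), if_pos (by omega),
      if_neg (by omega), if_neg (by omega)]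
    ring
  · subst h
    rw [if_pos rfl, if_neg (by omega), if_pos le_rfl, if_pos rfl, if_neg (by omega),
      Nat.add_sub_cancel]
    ring
  · by_cases h2 : k = a
    · subst h2
      rw [if_neg (by omega), if_neg (by omega), if_pos rfl, if_neg (by omega), if_pos rfl]
      ring
    · rw [if_neg (by omega), if_neg (by omega), if_neg (by omega), if_neg (by omega),
        if_neg (by omega), if_neg h2]
      ring

theorem V_step {b k : ℕ} (hb : 3 ≤ b) :
    ind (k + 2) b - ind (k + 1) b = rho k * (V b (k + 1) - V b k) := by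
  unfold V ind
  have h0 := rho_pos k
  rcases Nat.lt_trichotomy (k + 2) b with h | h | h
  · rw [if_neg (by omega), if_neg (by omega), if_neg (by omega), if_neg (by omega),
      if_neg (by omega), if_neg (by omega)]
    ring
  · subst h
    rw [if_pos rfl, if_neg (by omega), if_pos (by omega), if_neg (by omega), if_neg (by omega),
      Nat.add_sub_cancel]
    field_simp
    ring
  · by_cases h2 : k + 1 = b
    · subst h2
      have e1 : k + 1 - 1 = k := by omega
      rw [if_neg (by omega), if_pos rfl, if_neg (by omega), if_pos le_rfl, if_pos rfl, e1]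
      field_simp
      ring
    · rw [if_neg (by omega), if_neg h2, if_neg (by omega), if_pos (by omega),
        if_neg (by omega), if_pos (by omega)]
      ring

theorem gu_pos {n a : ℕ} (hn : 4 ≤ n) (ha : 1 ≤ a) (ha2 : a + 2 ≤ n) :
    0 < ind 1 a + U a 3 - ind (n - 2) a - U a n := by
  have h1 : U a n = 0 := (U_zero ha n).2 ha2
  rw [h1]
  by_cases h2 : a = 1
  · subst h2
    have h3 : U 1 3 = 0 := (U_zero le_rfl 3).2 (by omega)
    unfold ind
    rw [h3, if_pos rfl, if_neg (by omega)]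
    norm_num
  by_cases h3 : a = 2
  · subst h3
    have h4 : U 2 3 = 2 := by
      unfold U rho
      rw [if_pos rfl]
      norm_num
    rw [h4]
    unfold ind
    split_ifs <;> norm_num
  · have h4 : U a 3 = rho a - rho (a - 1) := by
      unfold U
      rw [if_neg (by omega), if_pos (by omega)]
    obtain ⟨k, rfl⟩ : ∃ k, a = k + 3 := ⟨a - 3, by omega⟩
    have h5 : k + 3 - 1 = k + 2 := by omega
    have h6 : (6 : ℝ) ≤ U (k + 3) 3 := by
      rw [h4, h5, rho_succ, show rho (k + 2) = 2 * 4 ^ k by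
        unfold rho; rw [pow_add]; ring]
      have : (1 : ℝ) ≤ 4 ^ k := one_le_pow₀ (by norm_num)
      linarith
    have h7 : ind (n - 2) (k + 3) ≤ 1 := by unfold ind; split_ifs <;> norm_num
    have h8 := ind_nonneg 1 (k + 3)
    linarith

theorem gz_neg {n b : ℕ} (hn : 4 ≤ n) (hb : 3 ≤ b) (hb2 : b ≤ n) :
    V b 1 + ind 3 b - V b (n - 2) - ind n b < 0 := by
  have h1 : V b 1 = 0 := (V_zero hb 1).2 (by omega)
  rw [h1]
  by_cases h2 : b = 3
  · subst h2
    have h3 : ind n 3 = 0 := (ind_zero _ _).2 (by omega)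
    have h4 : ind 3 3 = 1 := if_pos rfl
    rw [h3, h4]
    unfold V rho
    split_ifs with h5 h6
    · norm_num
    · norm_num
    · omega
  · have h3 : ind 3 b = 0 := (ind_zero _ _).2 (by omega)
    rw [h3]
    by_cases h4 : b = n
    · have h5 : ind n b = 1 := if_pos h4.symm
      have h6 := V_nonneg hb (n - 2)
      rw [h5]
      linarith
    · have h5 := V_nonneg hb (n - 2)
      have h6 : V b (n - 2) ≠ 0 := by
        intro h
        have := (V_zero hb (n - 2)).1 h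
        omega
      have h7 : 0 < V b (n - 2) := lt_of_le_of_ne h5 (Ne.symm h6)
      have h8 := ind_nonneg n b
      linarith

theorem exists_pos {n : ℕ} (hn : 4 ≤ n) (A B : Finset ℕ) (hA : A.Nonempty) (hB : B.Nonempty)
    (hA2 : ∀ a ∈ A, 1 ≤ a ∧ a + 2 ≤ n) (hB2 : ∀ b ∈ B, 3 ≤ b ∧ b ≤ n) :
    ∃ a b : ℕ → ℝ, Pos n a b ∧ (∀ i, a i = 0 ↔ (i ∉ A ∧ ∀ y ∈ B, i + 2 ≤ y)) ∧
      (∀ j, b j = 0 ↔ (j ∉ B ∧ ∀ x ∈ A, x + 2 ≤ j)) := by
  set t : ℝ := ∑ x ∈ A, (ind 1 x + U x 3 - ind (n - 2) x - U x n) with ht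
  set s : ℝ := - ∑ y ∈ B, (V y 1 + ind 3 y - V y (n - 2) - ind n y) with hs
  have ht0 : 0 < t := sum_pos (fun x hx => gu_pos hn (hA2 x hx).1 (hA2 x hx).2) hA
  have hs0 : 0 < s := by
    rw [hs, ← sum_neg_distrib]
    exact sum_pos (fun y hy => by
      have := gz_neg hn (hB2 y hy).1 (hB2 y hy).2
      linarith) hB
  have hindA : ∀ i, 0 ≤ ∑ x ∈ A, ind i x := fun i => sum_nonneg (fun x _ => ind_nonneg i x)
  have hindB : ∀ i, 0 ≤ ∑ x ∈ B, ind i x := fun i => sum_nonneg (fun x _ => ind_nonneg i x)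
  have hU : ∀ j, 0 ≤ ∑ x ∈ A, U x j := fun j => sum_nonneg (fun x hx => U_nonneg (hA2 x hx).1 j)
  have hV : ∀ i, 0 ≤ ∑ y ∈ B, V y i := fun i => sum_nonneg (fun y hy => V_nonneg (hB2 y hy).1 i)
  have hindA0 : ∀ i, ∑ x ∈ A, ind i x = 0 ↔ i ∉ A := by
    intro i
    rw [sum_eq_zero_iff_of_nonneg (fun x _ => ind_nonneg i x)]
    constructor
    · intro h hi
      exact (ind_zero _ _).1 (h i hi) rfl
    · intro h x hx
      exact (ind_zero _ _).2 (fun e => h (e ▸ hx))
  have hindB0 : ∀ i, ∑ x ∈ B, ind i x = 0 ↔ i ∉ B := by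
    intro i
    rw [sum_eq_zero_iff_of_nonneg (fun x _ => ind_nonneg i x)]
    constructor
    · intro h hi
      exact (ind_zero _ _).1 (h i hi) rfl
    · intro h x hx
      exact (ind_zero _ _).2 (fun e => h (e ▸ hx))
  have hU0 : ∀ j, ∑ x ∈ A, U x j = 0 ↔ ∀ x ∈ A, x + 2 ≤ j := by
    intro j
    rw [sum_eq_zero_iff_of_nonneg (fun x hx => U_nonneg (hA2 x hx).1 j)]
    exact forall₂_congr (fun x hx => U_zero (hA2 x hx).1 j)
  have hV0 : ∀ i, ∑ y ∈ B, V y i = 0 ↔ ∀ y ∈ B, i + 2 ≤ y := by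
    intro i
    rw [sum_eq_zero_iff_of_nonneg (fun y hy => V_nonneg (hB2 y hy).1 i)]
    exact forall₂_congr (fun y hy => V_zero (hB2 y hy).1 i)
  refine ⟨fun i => s * ∑ x ∈ A, ind i x + t * ∑ y ∈ B, V y i,
    fun j => t * ∑ y ∈ B, ind j y + s * ∑ x ∈ A, U x j, ⟨⟨?_, ?_⟩, ?_, ?_⟩, ?_, ?_⟩
  · intro k _ _
    have h1 : ∑ x ∈ A, U x (k + 2) - ∑ x ∈ A, U x (k + 1)
        = rho k * (∑ x ∈ A, ind (k + 1) x - ∑ x ∈ A, ind k x) := by
      rw [← sum_sub_distrib, ← sum_sub_distrib, mul_sum]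
      exact sum_congr rfl (fun x hx => U_step (hA2 x hx).1)
    have h2 : ∑ y ∈ B, ind (k + 2) y - ∑ y ∈ B, ind (k + 1) y
        = rho k * (∑ y ∈ B, V y (k + 1) - ∑ y ∈ B, V y k) := by
      rw [← sum_sub_distrib, ← sum_sub_distrib, mul_sum]
      exact sum_congr rfl (fun y hy => V_step (hB2 y hy).1)
    calc (t * ∑ y ∈ B, ind (k + 2) y + s * ∑ x ∈ A, U x (k + 2))
          - (t * ∑ y ∈ B, ind (k + 1) y + s * ∑ x ∈ A, U x (k + 1))
        = t * (∑ y ∈ B, ind (k + 2) y - ∑ y ∈ B, ind (k + 1) y)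
          + s * (∑ x ∈ A, U x (k + 2) - ∑ x ∈ A, U x (k + 1)) := by ring
      _ = _ := by rw [h1, h2]; ring
  · have h1 : t = ∑ x ∈ A, ind 1 x + ∑ x ∈ A, U x 3 - ∑ x ∈ A, ind (n - 2) x - ∑ x ∈ A, U x n := by
      rw [ht, ← sum_add_distrib, ← sum_sub_distrib, ← sum_sub_distrib]
    have h2 : s = -(∑ y ∈ B, V y 1 + ∑ y ∈ B, ind 3 y - ∑ y ∈ B, V y (n - 2)
        - ∑ y ∈ B, ind n y) := by
      rw [hs, ← sum_add_distrib, ← sum_sub_distrib, ← sum_sub_distrib]
    generalize hx1 : ∑ x ∈ A, ind 1 x = x1 at *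
    generalize hx2 : ∑ x ∈ A, U x 3 = x2 at *
    generalize hx3 : ∑ x ∈ A, ind (n - 2) x = x3 at *
    generalize hx4 : ∑ x ∈ A, U x n = x4 at *
    generalize hy1 : ∑ y ∈ B, V y 1 = y1 at *
    generalize hy2 : ∑ y ∈ B, ind 3 y = y2 at *
    generalize hy3 : ∑ y ∈ B, V y (n - 2) = y3 at *
    generalize hy4 : ∑ y ∈ B, ind n y = y4 at *
    show s * x1 + t * y1 + (t * y2 + s * x2) = s * x3 + t * y3 + (t * y4 + s * x4)
    have h3 : s * (x1 + x2 - x3 - x4) + t * (y1 + y2 - y3 - y4) = 0 := by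
      have h4 : y1 + y2 - y3 - y4 = -s := by linarith
      rw [← h1, h4]
      ring
    linarith
  · intro i _ _
    exact add_nonneg (mul_nonneg hs0.le (hindA i)) (mul_nonneg ht0.le (hV i))
  · intro j _ _
    exact add_nonneg (mul_nonneg ht0.le (hindB j)) (mul_nonneg hs0.le (hU j))
  · intro i
    show s * ∑ x ∈ A, ind i x + t * ∑ y ∈ B, V y i = 0 ↔ _
    rw [add_eq_zero_iff_of_nonneg (mul_nonneg hs0.le (hindA i)) (mul_nonneg ht0.le (hV i)),
      mul_eq_zero_iff_left hs0.ne', mul_eq_zero_iff_left ht0.ne', hindA0, hV0]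
  · intro j
    show t * ∑ y ∈ B, ind j y + s * ∑ x ∈ A, U x j = 0 ↔ _
    rw [add_eq_zero_iff_of_nonneg (mul_nonneg ht0.le (hindB j)) (mul_nonneg hs0.le (hU j)),
      mul_eq_zero_iff_left ht0.ne', mul_eq_zero_iff_left hs0.ne', hindB0, hU0]

/-- the vertices of the explicit face with index `(p, q)` -/
def InZ (σ : ℕ → Prop) (p q i j : ℕ) : Prop :=
  i ≤ p ∧ q ≤ j ∧ (i + 2 ≤ q → i + 2 ≠ q ∧ σ i) ∧ (p + 2 ≤ j → j ≠ p + 2 ∧ σ j)

open Classical in
theorem exists_face {n : ℕ} (hn : 4 ≤ n) (σ : ℕ → Prop) {p q : ℕ} (hp1 : 1 ≤ p)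
    (hp2 : p + 2 ≤ n) (hq1 : 3 ≤ q) (hq2 : q ≤ n) :
    ∃ a b : ℕ → ℝ, Pos n a b ∧
      ∀ i j, Dg n i j → ((a i = 0 ∧ b j = 0) ↔ InZ σ p q i j) := by
  obtain ⟨a, b, hpos, h1, h2⟩ := exists_pos hn
    (insert (q - 2) ((Icc 1 (q - 2)).filter (fun x => ¬ σ x)))
    (insert (p + 2) ((Icc (p + 2) n).filter (fun x => ¬ σ x)))
    (insert_nonempty _ _) (insert_nonempty _ _) (by
      intro x hx
      rcases mem_insert.1 hx with rfl | hx
      · omega
      · have := mem_Icc.1 (mem_filter.1 hx).1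
        omega) (by
      intro x hx
      rcases mem_insert.1 hx with rfl | hx
      · omega
      · have := mem_Icc.1 (mem_filter.1 hx).1
        omega)
  refine ⟨a, b, hpos, ?_⟩
  intro i j hij
  obtain ⟨hi, hj, hd⟩ := hij
  rw [h1, h2]
  constructor
  · rintro ⟨⟨h3, h4⟩, h5, h6⟩
    have h7 := h4 (p + 2) (mem_insert_self _ _)
    have h8 := h6 (q - 2) (mem_insert_self _ _)
    refine ⟨by omega, by omega, ?_, ?_⟩
    · intro h9
      constructor
      · intro h10
        exact h3 (mem_insert.2 (Or.inl (by omega)))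
      · by_contra h10
        exact h3 (mem_insert.2 (Or.inr (mem_filter.2 ⟨mem_Icc.2 ⟨by omega, by omega⟩, h10⟩)))
    · intro h9
      constructor
      · intro h10
        exact h5 (mem_insert.2 (Or.inl (by omega)))
      · by_contra h10
        exact h5 (mem_insert.2 (Or.inr (mem_filter.2 ⟨mem_Icc.2 ⟨by omega, by omega⟩, h10⟩)))
  · rintro ⟨h3, h4, h5, h6⟩
    refine ⟨⟨?_, ?_⟩, ?_, ?_⟩
    · intro h7
      rcases mem_insert.1 h7 with h8 | h8
      · exact (h5 (by omega)).1 (by omega)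
      · have h9 := mem_filter.1 h8
        have h10 := mem_Icc.1 h9.1
        exact h9.2 (h5 (by omega)).2
    · intro y hy
      rcases mem_insert.1 hy with h8 | h8
      · omega
      · have h10 := mem_Icc.1 (mem_filter.1 h8).1
        omega
    · intro h7
      rcases mem_insert.1 h7 with h8 | h8
      · exact (h6 (by omega)).1 (by omega)
      · have h9 := mem_filter.1 h8
        have h10 := mem_Icc.1 h9.1
        exact h9.2 (h6 (by omega)).2
    · intro y hy
      rcases mem_insert.1 hy with h8 | h8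
      · omega
      · have h10 := mem_Icc.1 (mem_filter.1 h8).1
        omega

end Pool.Agent.N360.JN
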