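import Pool.Agent.N360.JN.Rank

set_option autoImplicit false

/-!
Extreme points, exposed faces, dimension.
-/

namespace Pool.Agent.N360.JN

open Set

/-- a functional exposing exactly one vertex -/
theorem exists_single {n : ℕ} (hn : 4 ≤ n) {i0 j0 : ℕ} (h0 : Dg n i0 j0) :
    ∃ (l : StrongDual ℝ (E (n - 3))) (c : ℝ), (∀ i j, Dg n i j → l (vv n i j) ≤ c) ∧
      ∀ i j, Dg n i j → (l (vv n i j) = c ↔ (i = i0 ∧ j = j0)) := by
  obtain ⟨K, l, c, h1, -, h3⟩ := exists_K hn (fun r => r = i0 ∨ r = j0)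
    (p := i0) (q := j0) ⟨h0.le1, h0.le2, h0.le3, h0.le4⟩
  refine ⟨l, c, h1, ?_⟩
  intro i j hij
  rw [h3 i j hij]
  constructor
  · rintro ⟨z1, z2, z3, z4⟩
    have hi : i = i0 := by
      by_cases h : i + 2 ≤ j0
      · rcases (z3 h).2 with h5 | h5
        · exact h5
        · have := h0.lt
          omega
      · obtain ⟨-, -, h6 | ⟨h6, -⟩⟩ := h0 <;> omega
    have hj : j = j0 := by
      by_cases h : i0 + 2 ≤ j
      · rcases (z4 h).2 with h5 | h5
        · have := h0.lt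
          omega
        · exact h5
      · obtain ⟨-, -, h6 | ⟨h6, -⟩⟩ := h0 <;> omega
    exact ⟨hi, hj⟩
  · rintro ⟨rfl, rfl⟩
    refine ⟨le_rfl, le_rfl, fun h => ⟨?_, Or.inl rfl⟩, fun h => ⟨?_, Or.inr rfl⟩⟩
    · obtain ⟨-, -, h6 | ⟨h6, -⟩⟩ := h0 <;> omega
    · obtain ⟨-, -, h6 | ⟨h6, -⟩⟩ := h0 <;> omega

theorem vv_inj {n : ℕ} (hn : 4 ≤ n) {i j i' j' : ℕ} (h : Dg n i j) (h' : Dg n i' j')
    (he : vv n i j = vv n i' j') : i = i' ∧ j = j' := by
  obtain ⟨l, c, -, h2⟩ := exists_single hn h'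
  exact (h2 i j h).1 (by rw [he]; exact (h2 i' j' h').2 ⟨rfl, rfl⟩)

theorem isExposed_of {n : ℕ} {l : StrongDual ℝ (E (n - 3))} {c : ℝ}
    (h : ∀ i j, Dg n i j → l (vv n i j) ≤ c) {x : E (n - 3)} (hx : x ∈ PP n) (hlx : l x = c) :
    IsExposed ℝ (PP n) {y | y ∈ PP n ∧ l y = c} := by
  intro _
  refine ⟨l, ?_⟩
  ext y
  constructor
  · rintro ⟨h1, h2⟩
    refine ⟨h1, fun z hz => ?_⟩
    rw [h2]
    exact le_on_PP h z hz
  · rintro ⟨h1, h2⟩
    refine ⟨h1, le_antisymm (le_on_PP h y h1) ?_⟩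
    have := h2 x hx
    rw [hlx] at this
    exact this

theorem exists_of_exposed {n : ℕ} {F : Set (E (n - 3))} (hF : IsExposed ℝ (PP n) F)
    (hne : F.Nonempty) : ∃ (l : StrongDual ℝ (E (n - 3))) (c : ℝ),
      (∀ i j, Dg n i j → l (vv n i j) ≤ c) ∧ F = {y | y ∈ PP n ∧ l y = c} := by
  obtain ⟨l, hl⟩ := hF hne
  obtain ⟨x, hx⟩ := hne
  have hx' := hx
  rw [hl] at hx'
  refine ⟨l, l x, fun i j hij => hx'.2 _ (vv_mem hij), ?_⟩
  rw [hl]
  ext y
  constructor
  · rintro ⟨h1, h2⟩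
    exact ⟨h1, le_antisymm (hx'.2 y h1) (h2 x hx'.1)⟩
  · rintro ⟨h1, h2⟩
    exact ⟨h1, fun z hz => by rw [h2]; exact hx'.2 z hz⟩

theorem extreme_vv {n : ℕ} (hn : 4 ≤ n) {i j : ℕ} (h : Dg n i j) :
    vv n i j ∈ (PP n).extremePoints ℝ := by
  obtain ⟨l, c, h1, h2⟩ := exists_single hn h
  have h3 := isExposed_of h1 (vv_mem h) ((h2 i j h).2 ⟨rfl, rfl⟩)
  have h4 : {y | y ∈ PP n ∧ l y = c} = {vv n i j} := by
    ext y
    constructor
    · rintro ⟨hy, hly⟩
      obtain ⟨T, hTW, -, hyT, hT⟩ := exists_support hy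
      have h5 : T ⊆ {vv n i j} := by
        intro z hz
        obtain ⟨i', j', hij', rfl⟩ := hTW hz
        have h6 := hT l c (by rintro _ ⟨a, b, hab, rfl⟩; exact h1 a b hab) hly _ hz
        obtain ⟨rfl, rfl⟩ := (h2 i' j' hij').1 h6
        rfl
      have h7 := convexHull_mono (𝕜 := ℝ) h5 hyT
      rwa [convexHull_singleton] at h7
    · rintro rfl
      exact ⟨vv_mem h, (h2 i j h).2 ⟨rfl, rfl⟩⟩
  rw [h4] at h3
  exact h3.isExtreme.mem_extremePoints

/-- full dimension -/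
theorem interior_PP {n : ℕ} (hn : 4 ≤ n) : (interior (PP n)).Nonempty := by
  unfold PP
  rw [interior_convexHull_nonempty_iff_affineSpan_eq_top]
  have h1n : Dg n 1 n := ⟨le_rfl, le_rfl, Or.inl (by omega)⟩
  have hne : (Vt n).Nonempty := ⟨_, 1, n, h1n, rfl⟩
  rw [AffineSubspace.affineSpan_eq_top_iff_vectorSpan_eq_top_of_nonempty ℝ _ _ hne]
  by_contra hcon
  obtain ⟨f, hf0, hf⟩ := Submodule.exists_le_ker_of_lt_top _ (lt_top_iff_ne_top.2 hcon)
  apply hf0
  set l : StrongDual ℝ (E (n - 3)) := LinearMap.toContinuousLinearMap f with hl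
  have hlf : ∀ x, l x = f x := fun x => rfl
  have hconst : ∀ i j, Dg n i j → l (xv n i) + l (yv n j) = l (vv n 1 n) := by
    intro i j hij
    have h1 : vv n i j -ᵥ vv n 1 n ∈ vectorSpan ℝ (Vt n) :=
      vsub_mem_vectorSpan ℝ ⟨i, j, hij, rfl⟩ ⟨1, n, h1n, rfl⟩
    have h2 := hf h1
    rw [LinearMap.mem_ker, vsub_eq_sub, map_sub, sub_eq_zero, ← hlf, ← hlf] at h2
    rw [← h2]
    unfold vv
    rw [map_add]
  have hrel := rel_of hn l 0 0
  have hk2 : ∀ k, 2 ≤ k → k + 3 ≤ n → l (fv n k) = 0 := by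
    intro k h2 h3
    have h4 := phi hrel h2 h3
    have h5 := hconst k (k + 1) ⟨by omega, by omega, Or.inr ⟨rfl, by omega, by omega⟩⟩
    have h6 := hconst (k + 1) (k + 2) ⟨by omega, by omega, Or.inr ⟨rfl, by omega, by omega⟩⟩
    have h7 := xv_step n (k := k) (by omega)
    simp only [zero_sub] at h4
    have h8 : (-l (xv n (k + 1)) + -l (yv n (k + 2)) - (-l (xv n k) + -l (yv n (k + 1)))) = 0 := by
      linarith
    rw [h8, mul_zero] at h4
    have h9 : l (xv n (k + 1)) = l (xv n k) + l (fv n k) := by rw [h7, map_add]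
    linarith
  have hx12 : l (xv n 2) = l (xv n 1) := by
    have h2 := hconst 1 n h1n
    by_cases h4 : n = 4
    · subst h4
      have h3 := hconst 2 3 ⟨by omega, by omega, Or.inr ⟨rfl, by omega, by omega⟩⟩
      have h5 := congrArg l (vv_wrap (n := 4) le_rfl)
      rw [map_add, map_add] at h5
      have e : 4 - 2 = 2 := rfl
      rw [e] at h5
      linarith
    · have h3 := hconst 2 n ⟨by omega, by omega, Or.inl (by omega)⟩
      linarith
  have hk1 : l (fv n 1) = 0 := by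
    have h7 := xv_step n (k := 1) le_rfl
    have h9 : l (xv n 2) = l (xv n 1) + l (fv n 1) := by rw [h7, map_add]
    linarith
  have hall : ∀ K : Fin (n - 3), f (EuclideanSpace.single K (1 : ℝ)) = 0 := by
    intro K
    have hK := K.2
    have h1 : fv n (K + 1) = EuclideanSpace.single K (1 : ℝ) := by
      unfold fv
      rw [dif_pos (show (K : ℕ) + 1 - 1 < n - 3 by omega)]
      congr 1
    rw [← h1, ← hlf]
    by_cases h0 : (K : ℕ) = 0
    · rw [h0]; exact hk1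
    · exact hk2 _ (by omega) (by omega)
  refine (EuclideanSpace.basisFun (Fin (n - 3)) ℝ).toBasis.ext ?_
  intro K
  rw [LinearMap.zero_apply, OrthonormalBasis.coe_toBasis, EuclideanSpace.basisFun_apply]
  exact hall K

end Pool.Agent.N360.JN
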