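import Pool.Agent.N360.JN.AE
import Pool.Agent.N360.JN.Comb

set_option autoImplicit false

/-!
The polytope and its faces.
-/

namespace Pool.Agent.N360.JN

open Set

/-- basis vectors -/
noncomputable def fv (n k : ℕ) : E (n - 3) :=
  if h : k - 1 < n - 3 then EuclideanSpace.single ⟨k - 1, h⟩ (1 : ℝ) else 0

/-- first summand -/
noncomputable def xv (n i : ℕ) : E (n - 3) := ∑ k ∈ Finset.Ico 1 i, fv n k

/-- second summand -/
noncomputable def yv (n j : ℕ) : E (n - 3) :=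
  if j = n then - xv n (n - 2) else ∑ k ∈ Finset.Ico 2 (j - 1), rho k • fv n k

/-- the vertices -/
noncomputable def vv (n i j : ℕ) : E (n - 3) := xv n i + yv n j

theorem xv_step (n : ℕ) {k : ℕ} (hk : 1 ≤ k) : xv n (k + 1) = xv n k + fv n k := by
  unfold xv
  exact Finset.sum_Ico_succ_top hk _

theorem yv_step (n : ℕ) {k : ℕ} (hk : 2 ≤ k) (hk2 : k + 3 ≤ n) :
    yv n (k + 2) = yv n (k + 1) + rho k • fv n k := by
  unfold yv
  rw [if_neg (by omega), if_neg (by omega), show k + 2 - 1 = k + 1 by omega, Nat.add_sub_cancel]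
  exact Finset.sum_Ico_succ_top hk _

theorem vv_wrap {n : ℕ} (hn : 4 ≤ n) : xv n 1 + yv n 3 = xv n (n - 2) + yv n n := by
  unfold yv
  rw [if_neg (by omega), if_pos rfl]
  unfold xv
  simp

theorem exists_functional (n : ℕ) (φ : ℕ → ℝ) : ∃ l : StrongDual ℝ (E (n - 3)),
    ∀ k, 1 ≤ k → k + 3 ≤ n → l (fv n k) = φ k := by
  refine ⟨∑ K : Fin (n - 3), φ (K + 1) • (EuclideanSpace.proj K : StrongDual ℝ (E (n - 3))), ?_⟩
  intro k hk1 hk2
  have h : k - 1 < n - 3 := by omega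
  have h1 : fv n k = EuclideanSpace.single ⟨k - 1, h⟩ (1 : ℝ) := dif_pos h
  rw [h1, _root_.sum_apply, Finset.sum_eq_single (⟨k - 1, h⟩ : Fin (n - 3))]
  · simp only [_root_.smul_apply, smul_eq_mul]
    have h2 : (EuclideanSpace.proj (⟨k - 1, h⟩ : Fin (n - 3)) : StrongDual ℝ (E (n - 3)))
        (EuclideanSpace.single ⟨k - 1, h⟩ (1 : ℝ)) = 1 := by simp
    rw [h2, mul_one]
    congr 1
    omega
  · intro K _ hK
    simp only [_root_.smul_apply, smul_eq_mul]
    have h2 : (EuclideanSpace.proj K : StrongDual ℝ (E (n - 3)))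
        (EuclideanSpace.single ⟨k - 1, h⟩ (1 : ℝ)) = 0 := by
      simp [hK]
    rw [h2, mul_zero]
  · intro h2
    exact absurd (Finset.mem_univ _) h2

/-- every functional gives sequences satisfying the relations -/
theorem rel_of {n : ℕ} (hn : 4 ≤ n) (l : StrongDual ℝ (E (n - 3))) (c d : ℝ) :
    Rel n (fun i => c - l (xv n i)) (fun j => d - l (yv n j)) := by
  constructor
  · intro k hk1 hk2
    show d - l (yv n (k + 2)) - (d - l (yv n (k + 1)))
      = rho k * (c - l (xv n (k + 1)) - (c - l (xv n k)))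
    rw [yv_step n hk1 hk2, xv_step n (by omega), map_add, map_add, map_smul, smul_eq_mul]
    ring
  · show c - l (xv n 1) + (d - l (yv n 3)) = c - l (xv n (n - 2)) + (d - l (yv n n))
    have h := congrArg l (vv_wrap hn)
    rw [map_add, map_add] at h
    linarith

/-- every sequence satisfying the relations comes from a functional -/
theorem exists_of_rel {n : ℕ} (hn : 4 ≤ n) {a b : ℕ → ℝ} (h : Rel n a b) :
    ∃ (l : StrongDual ℝ (E (n - 3))) (c : ℝ), ∀ i j, 1 ≤ i → i + 2 ≤ n → 3 ≤ j → j ≤ n →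
      c - l (vv n i j) = a i + b j := by
  obtain ⟨l, hl⟩ := exists_functional n (fun k => -(a (k + 1) - a k))
  refine ⟨l, a 1 + l (xv n 1) + (b 3 + l (yv n 3)), ?_⟩
  have ha : ∀ k, k + 3 ≤ n → a (k + 1) + l (xv n (k + 1)) = a 1 + l (xv n 1) := by
    intro k
    induction k with
    | zero => intro _; rfl
    | succ m ih =>
      intro hk
      have h1 := ih (by omega)
      have h2 := xv_step n (k := m + 1) (by omega)
      have h3 := hl (m + 1) (by omega) hk
      rw [h2, map_add, h3]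
      linarith
  have hb : ∀ k, k + 4 ≤ n → b (k + 3) + l (yv n (k + 3)) = b 3 + l (yv n 3) := by
    intro k
    induction k with
    | zero => intro _; rfl
    | succ m ih =>
      intro hk
      have h1 := ih (by omega)
      have h2 := yv_step n (k := m + 2) (by omega) (by omega)
      have h3 := hl (m + 2) (by omega) (by omega)
      have h4 := h.step (m + 2) (by omega) (by omega)
      have e1 : m + 2 + 2 = m + 1 + 3 := by omega
      have e2 : m + 2 + 1 = m + 3 := by omega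
      rw [e1, e2] at h2 h4
      rw [e2] at h3
      rw [h2, map_add, map_smul, smul_eq_mul, h3]
      linarith
  have hbn : b n + l (yv n n) = b 3 + l (yv n 3) := by
    have h1 := h.wrap
    have h2 := congrArg l (vv_wrap hn)
    rw [map_add, map_add] at h2
    have h3 := ha (n - 3) (by omega)
    have e : n - 3 + 1 = n - 2 := by omega
    rw [e] at h3
    linarith
  intro i j hi1 hi2 hj1 hj2
  have h1 : a i + l (xv n i) = a 1 + l (xv n 1) := by
    obtain ⟨k, rfl⟩ : ∃ k, i = k + 1 := ⟨i - 1, by omega⟩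
    exact ha k (by omega)
  have h2 : b j + l (yv n j) = b 3 + l (yv n 3) := by
    by_cases hj : j = n
    · rw [hj]; exact hbn
    · obtain ⟨k, rfl⟩ : ∃ k, j = k + 3 := ⟨j - 3, by omega⟩
      exact hb k (by omega)
  unfold vv
  rw [map_add]
  linarith

/-- vertex set -/
def Vt (n : ℕ) : Set (E (n - 3)) := {x | ∃ i j, Dg n i j ∧ x = vv n i j}

/-- the polytope -/
def PP (n : ℕ) : Set (E (n - 3)) := convexHull ℝ (Vt n)

theorem vv_mem {n i j : ℕ} (h : Dg n i j) : vv n i j ∈ PP n :=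
  subset_convexHull ℝ _ ⟨i, j, h, rfl⟩

theorem Vt_finite (n : ℕ) : (Vt n).Finite := by
  have : Vt n ⊆ (fun p : ℕ × ℕ => vv n p.1 p.2) '' (↑(Finset.range (n + 1) ×ˢ Finset.range (n + 1))) := by
    rintro x ⟨i, j, hij, rfl⟩
    refine ⟨(i, j), ?_, rfl⟩
    simp only [Finset.coe_product, Finset.coe_range, mem_prod, mem_Iio]
    have := hij.le2
    have := hij.le4
    omega
  exact ((Finset.finite_toSet _).image _).subset this

theorem PP_compact (n : ℕ) : IsCompact (PP n) := (Vt_finite n).isCompact_convexHull (𝕜 := ℝ)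

theorem PP_closed (n : ℕ) : IsClosed (PP n) := (PP_compact n).isClosed

theorem PP_convex (n : ℕ) : Convex ℝ (PP n) := convex_convexHull ℝ _

theorem le_on_PP {n : ℕ} {l : StrongDual ℝ (E (n - 3))} {c : ℝ}
    (h : ∀ i j, Dg n i j → l (vv n i j) ≤ c) : ∀ x ∈ PP n, l x ≤ c := by
  intro x hx
  have h1 : Convex ℝ {y | l y ≤ c} := (convex_Iic c).linear_preimage l.toLinearMap
  exact convexHull_min (fun y hy => by obtain ⟨i, j, hij, rfl⟩ := hy; exact h i j hij) h1 hx

/-- support of a point of a convex hull -/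
theorem exists_support {m : ℕ} {W : Set (E m)} {x : E m} (hx : x ∈ convexHull ℝ W) :
    ∃ T ⊆ W, T.Nonempty ∧ x ∈ convexHull ℝ T ∧ ∀ (l : StrongDual ℝ (E m)) (c : ℝ),
      (∀ y ∈ W, l y ≤ c) → l x = c → ∀ y ∈ T, l y = c := by
  classical
  obtain ⟨ι, _, w, z, hw0, hw1, hz, rfl⟩ := mem_convexHull_iff_exists_fintype.1 hx
  let T : Set (E m) := z '' {i | w i ≠ 0}
  have hne : ∃ i, w i ≠ 0 := by
    by_contra hcon
    push Not at hcon
    rw [Finset.sum_eq_zero (fun i _ => hcon i)] at hw1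
    exact zero_ne_one hw1
  refine ⟨T, ?_, ?_, ?_, ?_⟩
  · rintro _ ⟨i, _, rfl⟩
    exact hz i
  · obtain ⟨i, hi⟩ := hne
    exact ⟨z i, i, hi, rfl⟩
  · obtain ⟨i0, hi0⟩ := hne
    refine mem_convexHull_of_exists_fintype w (fun i => if w i = 0 then z i0 else z i) hw0 hw1 ?_ ?_
    · intro i
      by_cases hi : w i = 0
      · simp only [if_pos hi]
        exact ⟨i0, hi0, rfl⟩
      · simp only [if_neg hi]
        exact ⟨i, hi, rfl⟩
    · refine Finset.sum_congr rfl (fun i _ => ?_)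
      by_cases hi : w i = 0
      · rw [hi, zero_smul, zero_smul]
      · simp only [if_neg hi]
  · intro l c hl hlx y hy
    obtain ⟨i, hi, rfl⟩ := hy
    have h1 : ∑ i, w i * (c - l (z i)) = 0 := by
      have h2 : l (∑ i, w i • z i) = ∑ i, w i * l (z i) := by
        rw [map_sum]
        exact Finset.sum_congr rfl (fun i _ => by rw [map_smul, smul_eq_mul])
      rw [h2] at hlx
      calc ∑ i, w i * (c - l (z i)) = (∑ i, w i) * c - ∑ i, w i * l (z i) := by
            rw [Finset.sum_mul, ← Finset.sum_sub_distrib]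
            exact Finset.sum_congr rfl (fun i _ => by ring)
        _ = 0 := by rw [hw1, hlx]; ring
    have h3 := (Finset.sum_eq_zero_iff_of_nonneg (fun i _ =>
      mul_nonneg (hw0 i) (sub_nonneg.2 (hl (z i) (hz i))))).1 h1 i (Finset.mem_univ _)
    rcases mul_eq_zero.1 h3 with h4 | h4
    · exact absurd h4 hi
    · linarith

theorem face_sub {n : ℕ} {l l' : StrongDual ℝ (E (n - 3))} {c c' : ℝ}
    (h : ∀ i j, Dg n i j → l (vv n i j) ≤ c)
    (hz : ∀ i j, Dg n i j → l (vv n i j) = c → l' (vv n i j) = c') :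
    ∀ x ∈ PP n, l x = c → l' x = c' := by
  intro x hx hlx
  obtain ⟨T, hTW, -, hxT, hT⟩ := exists_support hx
  have h1 : ∀ y ∈ T, l' y = c' := by
    intro y hy
    obtain ⟨i, j, hij, rfl⟩ := hTW hy
    exact hz i j hij (hT l c (by rintro _ ⟨i, j, hij, rfl⟩; exact h i j hij) hlx _ hy)
  have h2 : Convex ℝ {y | l' y = c'} := by
    have : {y | l' y = c'} = l' ⁻¹' {c'} := by ext; simp
    rw [this]
    exact (convex_singleton c').linear_preimage l'.toLinearMap
  exact convexHull_min h1 h2 hxT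

/-- the sequences attached to a face -/
theorem pos_of_face {n : ℕ} (hn : 4 ≤ n) {l : StrongDual ℝ (E (n - 3))} {c : ℝ}
    (h : ∀ i j, Dg n i j → l (vv n i j) ≤ c) {i0 j0 : ℕ} (h0 : Dg n i0 j0)
    (h00 : l (vv n i0 j0) = c) :
    ∃ a b : ℕ → ℝ, Pos n a b ∧ ∀ i j, Dg n i j → (l (vv n i j) = c ↔ a i = 0 ∧ b j = 0) := by
  have hv : ∀ i j, l (vv n i j) = l (xv n i) + l (yv n j) := fun i j => by
    unfold vv; rw [map_add]
  set a : ℕ → ℝ := fun i => l (xv n i0) - l (xv n i) with ha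
  set b : ℕ → ℝ := fun j => l (yv n j0) - l (yv n j) with hb
  have hrel : Rel n a b := rel_of hn l _ _
  have hsum : ∀ i j, a i + b j = c - l (vv n i j) := by
    intro i j
    rw [← h00, hv, hv]
    simp only [ha, hb]
    ring
  have hk := key hn hrel (fun i j hij => by rw [hsum]; linarith [h i j hij])
  have hb0 : b j0 = 0 := by simp [hb]
  have ha0 : a i0 = 0 := by simp [ha]
  have hpa : ∀ i, 1 ≤ i → i + 2 ≤ n → 0 ≤ a i := by
    intro i h1 h2
    have := hk i j0 h1 h2 h0.le3 h0.le4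
    rwa [hb0, add_zero] at this
  have hpb : ∀ j, 3 ≤ j → j ≤ n → 0 ≤ b j := by
    intro j h1 h2
    have := hk i0 j h0.le1 h0.le2 h1 h2
    rwa [ha0, zero_add] at this
  refine ⟨a, b, ⟨hrel, hpa, hpb⟩, ?_⟩
  intro i j hij
  have h1 := hsum i j
  have h2 := hpa i hij.le1 hij.le2
  have h3 := hpb j hij.le3 hij.le4
  constructor
  · intro h4
    rw [h4, sub_self] at h1
    constructor <;> linarith
  · rintro ⟨h4, h5⟩
    rw [h4, h5, add_zero] at h1
    linarith

/-- data of an explicit face -/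
def IsK (n : ℕ) (σ : ℕ → Prop) (p q : ℕ) (K : Set (E (n - 3))) : Prop :=
  ∃ (l : StrongDual ℝ (E (n - 3))) (c : ℝ), (∀ i j, Dg n i j → l (vv n i j) ≤ c) ∧
    K = {x | x ∈ PP n ∧ l x = c} ∧ ∀ i j, Dg n i j → (l (vv n i j) = c ↔ InZ σ p q i j)

/-- valid indices -/
def Val (n p q : ℕ) : Prop := 1 ≤ p ∧ p + 2 ≤ n ∧ 3 ≤ q ∧ q ≤ n

theorem exists_K {n : ℕ} (hn : 4 ≤ n) (σ : ℕ → Prop) {p q : ℕ} (hv : Val n p q) :
    ∃ K, IsK n σ p q K := by
  obtain ⟨h1, h2, h3, h4⟩ := hv
  obtain ⟨a, b, hpos, hz⟩ := exists_face hn σ h1 h2 h3 h4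
  obtain ⟨l, c, hl⟩ := exists_of_rel hn hpos.toRel
  have hl' : ∀ i j, Dg n i j → c - l (vv n i j) = a i + b j := fun i j hij =>
    hl i j hij.le1 hij.le2 hij.le3 hij.le4
  refine ⟨_, l, c, ?_, rfl, ?_⟩
  · intro i j hij
    have e1 := hl' i j hij
    have e2 := hpos.ha i hij.le1 hij.le2
    have e3 := hpos.hb j hij.le3 hij.le4
    linarith
  · intro i j hij
    rw [← hz i j hij]
    have e1 := hl' i j hij
    have e2 := hpos.ha i hij.le1 hij.le2
    have e3 := hpos.hb j hij.le3 hij.le4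
    constructor
    · intro h5
      rw [h5, sub_self] at e1
      constructor <;> linarith
    · rintro ⟨h5, h6⟩
      rw [h5, h6, add_zero] at e1
      linarith

open Classical in
/-- the explicit face with index `(p, q)` -/
noncomputable def Kf (n : ℕ) (σ : ℕ → Prop) (p q : ℕ) : Set (E (n - 3)) :=
  if h : ∃ K, IsK n σ p q K then h.choose else ∅

theorem Kf_spec {n : ℕ} (hn : 4 ≤ n) (σ : ℕ → Prop) {p q : ℕ} (hv : Val n p q) :
    IsK n σ p q (Kf n σ p q) := by
  have h := exists_K hn σ hv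
  unfold Kf
  rw [dif_pos h]
  exact h.choose_spec

theorem IsK.closed {n : ℕ} {σ : ℕ → Prop} {p q : ℕ} {K : Set (E (n - 3))}
    (h : IsK n σ p q K) : IsClosed K := by
  obtain ⟨l, c, -, rfl, -⟩ := h
  exact (PP_closed n).inter (isClosed_eq l.continuous continuous_const)

theorem IsK.convex {n : ℕ} {σ : ℕ → Prop} {p q : ℕ} {K : Set (E (n - 3))}
    (h : IsK n σ p q K) : Convex ℝ K := by
  obtain ⟨l, c, -, rfl, -⟩ := h
  have h2 : Convex ℝ {y | l y = c} := by
    have : {y | l y = c} = l ⁻¹' {c} := by ext; simp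
    rw [this]
    exact (convex_singleton c).linear_preimage l.toLinearMap
  exact (PP_convex n).inter h2

theorem IsK.vmem {n : ℕ} {σ : ℕ → Prop} {p q : ℕ} {K : Set (E (n - 3))}
    (h : IsK n σ p q K) {i j : ℕ} (hij : Dg n i j) : vv n i j ∈ K ↔ InZ σ p q i j := by
  obtain ⟨l, c, -, rfl, hz⟩ := h
  rw [← hz i j hij]
  exact ⟨fun h => h.2, fun h => ⟨vv_mem hij, h⟩⟩

theorem IsK.sub {n : ℕ} {σ : ℕ → Prop} {p q p' q' : ℕ} {K K' : Set (E (n - 3))}
    (h : IsK n σ p q K) (h' : IsK n σ p' q' K')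
    (hz : ∀ i j, Dg n i j → InZ σ p q i j → InZ σ p' q' i j) : K ⊆ K' := by
  obtain ⟨l, c, hl, rfl, hlz⟩ := h
  obtain ⟨l', c', hl', rfl, hlz'⟩ := h'
  rintro x ⟨hx, hxl⟩
  refine ⟨hx, face_sub hl ?_ x hx hxl⟩
  intro i j hij h1
  exact (hlz' i j hij).2 (hz i j hij ((hlz i j hij).1 h1))

/-- a common vertex -/
theorem common {n : ℕ} {σ : ℕ → Prop} {ι : Type} (T : Set ι) (p q : ι → ℕ)
    (K : ι → Set (E (n - 3))) (h : ∀ t ∈ T, IsK n σ (p t) (q t) (K t)) {x : E (n - 3)}
    (hxP : x ∈ PP n) (hx : ∀ t ∈ T, x ∈ K t) :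
    ∃ i j, Dg n i j ∧ ∀ t ∈ T, InZ σ (p t) (q t) i j := by
  obtain ⟨S, hSW, ⟨y, hy⟩, -, hS⟩ := exists_support hxP
  obtain ⟨i, j, hij, rfl⟩ := hSW hy
  refine ⟨i, j, hij, ?_⟩
  intro t ht
  obtain ⟨l, c, hl, hK, hlz⟩ := h t ht
  have h1 := hx t ht
  rw [hK] at h1
  exact (hlz i j hij).1 (hS l c (by rintro _ ⟨i, j, hij, rfl⟩; exact hl i j hij) h1.2 _ hy)

end Pool.Agent.N360.JN
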