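import Pool.Agent.N360.JN.Contr

set_option autoImplicit false

/-!
Translation between positions on the cycle and the zigzag order.
-/

namespace Pool.Agent.N360.JN

/-- zigzag rank of a position -/
def rk (n p : ℕ) : ℕ := if 2 * p + 1 ≤ n then 2 * p + 1 else 2 * (n - p)

theorem rk_bounds {n p : ℕ} (h : p < n) : 1 ≤ rk n p ∧ rk n p ≤ n := by
  unfold rk; split_ifs <;> omega

theorem rk_inj {n p q : ℕ} (hp : p < n) (hq : q < n) (h : rk n p = rk n q) : p = q := by
  unfold rk at h; split_ifs at h <;> omega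

theorem rk_surj {n r : ℕ} (h1 : 1 ≤ r) (h2 : r ≤ n) : ∃ p, p < n ∧ rk n p = r := by
  rcases Nat.even_or_odd' r with ⟨k, hk | hk⟩
  · refine ⟨n - k, by omega, ?_⟩
    unfold rk
    split_ifs <;> omega
  · refine ⟨k, by omega, ?_⟩
    unfold rk
    split_ifs <;> omega

/-- diagonals in terms of positions `p < q` -/
def DP (n p q : ℕ) : Prop := p + 2 ≤ q ∧ q < n ∧ ¬ (p = 0 ∧ q + 1 = n)

theorem dg_of_dp {n p q : ℕ} (h : DP n p q) :
    Dg n (min (rk n p) (rk n q)) (max (rk n p) (rk n q)) := by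
  obtain ⟨h1, h2, h3⟩ := h
  unfold Dg rk
  split_ifs with e1 e2 e2 <;> omega

theorem dp_of_dg {n i j : ℕ} (h : Dg n i j) :
    ∃ p q, DP n p q ∧ min (rk n p) (rk n q) = i ∧ max (rk n p) (rk n q) = j := by
  obtain ⟨p, hp, hpi⟩ := rk_surj h.le1 (show i ≤ n by have := h.le2; omega)
  obtain ⟨q, hq, hqj⟩ := rk_surj (show 1 ≤ j by have := h.le3; omega) h.le4
  have hlt := h.lt
  obtain ⟨h1, h2, h3⟩ := h
  rcases Nat.lt_or_ge p q with hpq | hpq
  · refine ⟨p, q, ?_, by omega, by omega⟩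
    unfold DP
    unfold rk at hpi hqj
    split_ifs at hpi hqj <;> omega
  · refine ⟨q, p, ?_, by omega, by omega⟩
    unfold DP
    unfold rk at hpi hqj
    split_ifs at hpi hqj <;> omega

theorem dp_inj {n p q p' q' : ℕ} (h : DP n p q) (h' : DP n p' q')
    (h1 : min (rk n p) (rk n q) = min (rk n p') (rk n q'))
    (h2 : max (rk n p) (rk n q) = max (rk n p') (rk n q')) : p = p' ∧ q = q' := by
  obtain ⟨a1, a2, a3⟩ := h
  obtain ⟨b1, b2, b3⟩ := h'
  unfold rk at h1 h2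
  split_ifs at h1 h2 <;> omega

end Pool.Agent.N360.JN
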