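import Mathlib

set_option autoImplicit false

/-!
Sequences `a 1, ..., a (n-2)` and `b 3, ..., b n` describing the affine functionals on the polytope.
-/

namespace Pool.Agent.N360.JN

/-- the weights -/
noncomputable def rho (k : ℕ) : ℝ := 4 ^ k / 8

theorem rho_pos (k : ℕ) : 0 < rho k := by unfold rho; positivity

theorem rho_succ (k : ℕ) : rho (k + 1) = 4 * rho k := by
  unfold rho; rw [pow_succ]; ring

/-- the mixing weights -/
noncomputable def tau (k : ℕ) : ℝ := 1 / (1 + rho k)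

theorem tau_mul (k : ℕ) : (1 + rho k) * tau k = 1 := by
  unfold tau
  have := rho_pos k
  field_simp

theorem tau_pos (k : ℕ) : 0 < tau k := by
  unfold tau
  have := rho_pos k
  positivity

theorem tau_lt_one (k : ℕ) : tau k < 1 := by
  have h1 := tau_mul k
  have h2 := rho_pos k
  have h3 := tau_pos k
  nlinarith [mul_pos h2 h3]

theorem tau_anti (k : ℕ) : tau (k + 1) < tau k := by
  unfold tau
  have h := rho_pos k
  rw [rho_succ]
  apply one_div_lt_one_div_of_lt
  · positivity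
  · linarith

/-- the linear relations -/
structure Rel (n : ℕ) (a b : ℕ → ℝ) : Prop where
  step : ∀ k, 2 ≤ k → k + 3 ≤ n → b (k + 2) - b (k + 1) = rho k * (a (k + 1) - a k)
  wrap : a 1 + b 3 = a (n - 2) + b n

/-- the pairs `i < j` which are diagonals in the zigzag order -/
def Dg (n i j : ℕ) : Prop :=
  1 ≤ i ∧ j ≤ n ∧ (i + 3 ≤ j ∨ (j = i + 1 ∧ 2 ≤ i ∧ i + 2 ≤ n))

theorem phi {n : ℕ} {a b : ℕ → ℝ} (h : Rel n a b) {k : ℕ} (h2 : 2 ≤ k) (h3 : k + 3 ≤ n) :
    a (k + 1) - a k = tau k * ((a (k + 1) + b (k + 2)) - (a k + b (k + 1))) := by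
  have h4 := h.step k h2 h3
  have h5 : (a (k + 1) + b (k + 2)) - (a k + b (k + 1)) = (1 + rho k) * (a (k + 1) - a k) := by
    linarith
  rw [h5, ← mul_assoc, mul_comm (tau k), tau_mul, one_mul]

theorem low {n : ℕ} {a b : ℕ → ℝ} (h : Rel n a b)
    (hC : ∀ k, 2 ≤ k → k + 2 ≤ n → 0 ≤ a k + b (k + 1)) (d : ℕ) : ∀ j, 3 ≤ j → j + d + 2 ≤ n →
    0 ≤ a (j + d) + b j - tau (j + d - 1) * (a (j + d) + b (j + d + 1)) ∧
    (a (j + d) + b j - tau (j + d - 1) * (a (j + d) + b (j + d + 1)) = 0 →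
      ∀ k, j ≤ k + 1 → k + 1 ≤ j + d → a k + b (k + 1) = 0) := by
  induction d with
  | zero =>
    intro j hj hn
    obtain ⟨i, rfl⟩ : ∃ i, j = i + 1 := ⟨j - 1, by omega⟩
    simp only [Nat.add_zero, Nat.add_sub_cancel]
    have h1 := phi h (k := i) (by omega) (by omega)
    have h2 := hC i (by omega) (by omega)
    have h3 := tau_lt_one i
    have h4 : a (i + 1) + b (i + 1) - tau i * (a (i + 1) + b (i + 1 + 1))
        = (1 - tau i) * (a i + b (i + 1)) := by
      have : a (i + 1) = a i + tau i * ((a (i + 1) + b (i + 2)) - (a i + b (i + 1))) := by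
        linarith
      calc a (i + 1) + b (i + 1) - tau i * (a (i + 1) + b (i + 1 + 1))
          = (a i + tau i * ((a (i + 1) + b (i + 2)) - (a i + b (i + 1)))) + b (i + 1)
            - tau i * (a (i + 1) + b (i + 1 + 1)) := by rw [← this]
        _ = (1 - tau i) * (a i + b (i + 1)) := by ring
    rw [h4]
    refine ⟨mul_nonneg (by linarith) h2, ?_⟩
    intro h5 k hk1 hk2
    have hk : k = i := by omega
    subst hk
    rcases mul_eq_zero.1 h5 with h6 | h6
    · linarith
    · exact h6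
  | succ d ih =>
    intro j hj hn
    obtain ⟨ih1, ih2⟩ := ih j hj (by omega)
    obtain ⟨i, hi⟩ : ∃ i, j + d = i + 1 := ⟨j + d - 1, by omega⟩
    have e1 : j + (d + 1) = i + 2 := by omega
    rw [e1]
    rw [hi] at ih1 ih2
    simp only [Nat.add_sub_cancel] at ih1 ih2
    have e2 : i + 2 - 1 = i + 1 := by omega
    rw [e2]
    have h1 := phi h (k := i + 1) (by omega) (by omega)
    have h2 := hC (i + 1) (by omega) (by omega)
    have h3 := tau_anti i
    have h4 : a (i + 2) + b j - tau (i + 1) * (a (i + 2) + b (i + 2 + 1))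
        = (a (i + 1) + b j - tau i * (a (i + 1) + b (i + 1 + 1)))
          + (tau i - tau (i + 1)) * (a (i + 1) + b (i + 1 + 1)) := by
      have : a (i + 2) = a (i + 1)
          + tau (i + 1) * ((a (i + 2) + b (i + 3)) - (a (i + 1) + b (i + 2))) := by
        have e : a (i + 1 + 1) = a (i + 2) := rfl
        have e' : b (i + 1 + 2) = b (i + 3) := rfl
        have e'' : b (i + 1 + 1) = b (i + 2) := rfl
        rw [e, e', e''] at h1
        linarith
      calc a (i + 2) + b j - tau (i + 1) * (a (i + 2) + b (i + 2 + 1))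
          = (a (i + 1) + tau (i + 1) * ((a (i + 2) + b (i + 3)) - (a (i + 1) + b (i + 2)))) + b j
            - tau (i + 1) * (a (i + 2) + b (i + 2 + 1)) := by rw [← this]
        _ = _ := by ring
    rw [h4]
    have h5 : 0 ≤ (tau i - tau (i + 1)) * (a (i + 1) + b (i + 1 + 1)) :=
      mul_nonneg (by linarith) h2
    refine ⟨by linarith, ?_⟩
    intro h6 k hk1 hk2
    have h7 : a (i + 1) + b j - tau i * (a (i + 1) + b (i + 1 + 1)) = 0 := by linarith
    have h8 : (tau i - tau (i + 1)) * (a (i + 1) + b (i + 1 + 1)) = 0 := by linarith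
    by_cases hk : k = i + 1
    · subst hk
      rcases mul_eq_zero.1 h8 with h9 | h9
      · linarith
      · exact h9
    · exact ih2 h7 k hk1 (by omega)

/-- pairs `(k, k+2)` -/
theorem mid {n : ℕ} {a b : ℕ → ℝ} (h : Rel n a b) {k : ℕ} (h2 : 2 ≤ k) (h3 : k + 3 ≤ n) :
    a k + b (k + 2) = tau k * (a k + b (k + 1)) + (1 - tau k) * (a (k + 1) + b (k + 2)) := by
  have h1 := phi h h2 h3
  have e : a k = a (k + 1)
      - tau k * ((a (k + 1) + b (k + 2)) - (a k + b (k + 1))) := by linarith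
  calc a k + b (k + 2) = (a (k + 1)
      - tau k * ((a (k + 1) + b (k + 2)) - (a k + b (k + 1)))) + b (k + 2) := by rw [← e]
    _ = _ := by ring

theorem wrap_nonneg {n : ℕ} {a b : ℕ → ℝ} (hn : 4 ≤ n) (h : Rel n a b)
    (hab : ∀ i j, Dg n i j → 0 ≤ a i + b j) : 0 ≤ a (n - 2) + b 3 := by
  have hC : ∀ k, 2 ≤ k → k + 2 ≤ n → 0 ≤ a k + b (k + 1) := fun k h2 h3 =>
    hab k (k + 1) ⟨by omega, by omega, Or.inr ⟨rfl, h2, h3⟩⟩
  by_cases h4 : n = 4
  · subst h4
    exact hC 2 (by omega) (by omega)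
  · obtain ⟨d, hd⟩ : ∃ d, n - 2 = 3 + d := ⟨n - 5, by omega⟩
    have h1 := (low h hC d 3 (by omega) (by omega)).1
    rw [← hd] at h1
    have h2 := hC (n - 2) (by omega) (by omega)
    have h3 := mul_nonneg (tau_pos (n - 2 - 1)).le h2
    linarith

theorem key {n : ℕ} {a b : ℕ → ℝ} (hn : 4 ≤ n) (h : Rel n a b)
    (hab : ∀ i j, Dg n i j → 0 ≤ a i + b j) :
    ∀ i j, 1 ≤ i → i + 2 ≤ n → 3 ≤ j → j ≤ n → 0 ≤ a i + b j := by
  have hC : ∀ k, 2 ≤ k → k + 2 ≤ n → 0 ≤ a k + b (k + 1) := fun k h2 h3 =>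
    hab k (k + 1) ⟨by omega, by omega, Or.inr ⟨rfl, h2, h3⟩⟩
  have hw : 0 ≤ a 1 + b 3 := by
    have h1 := wrap_nonneg hn h hab
    have h2 := hab 1 n ⟨le_rfl, le_rfl, Or.inl (by omega)⟩
    have h3 := h.wrap
    linarith
  intro i j hi1 hi2 hj1 hj2
  by_cases hfar : i + 3 ≤ j
  · exact hab i j ⟨hi1, hj2, Or.inl hfar⟩
  by_cases hi : i = 1
  · subst hi
    have : j = 3 := by omega
    subst this
    exact hw
  by_cases hjn : j = n
  · have : i = n - 2 := by omega
    subst this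
    rw [hjn, ← h.wrap]
    exact hw
  rcases Nat.lt_trichotomy j (i + 1) with hlt | heq | hgt
  · obtain ⟨d, hd⟩ : ∃ d, i = j + d := ⟨i - j, by omega⟩
    subst hd
    have h1 := (low h hC d j hj1 (by omega)).1
    have h2 := hC (j + d) (by omega) (by omega)
    have h3 := mul_nonneg (tau_pos (j + d - 1)).le h2
    linarith
  · subst heq
    exact hC i (by omega) (by omega)
  · have : j = i + 2 := by omega
    subst this
    rw [mid h (by omega) (by omega)]
    have h1 := hC i (by omega) (by omega)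
    have h2 := hC (i + 1) (by omega) (by omega)
    have h3 := tau_pos i
    have h4 := tau_lt_one i
    exact add_nonneg (mul_nonneg h3.le h1) (mul_nonneg (by linarith) h2)

/-- normalized functionals -/
structure Pos (n : ℕ) (a b : ℕ → ℝ) : Prop extends Rel n a b where
  ha : ∀ i, 1 ≤ i → i + 2 ≤ n → 0 ≤ a i
  hb : ∀ j, 3 ≤ j → j ≤ n → 0 ≤ b j

theorem Pos.hC {n : ℕ} {a b : ℕ → ℝ} (h : Pos n a b) :
    ∀ k, 2 ≤ k → k + 2 ≤ n → 0 ≤ a k + b (k + 1) := fun k h2 h3 =>
  add_nonneg (h.ha k (by omega) h3) (h.hb (k + 1) (by omega) (by omega))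

theorem Pos.split {n : ℕ} {a b : ℕ → ℝ} (h : Pos n a b) {k : ℕ} (h2 : 2 ≤ k) (h3 : k + 2 ≤ n)
    (h0 : a k + b (k + 1) = 0) : a k = 0 ∧ b (k + 1) = 0 := by
  have h4 := h.ha k (by omega) h3
  have h5 := h.hb (k + 1) (by omega) (by omega)
  constructor <;> linarith

/-- `S1` -/
theorem Pos.s1 {n : ℕ} {a b : ℕ → ℝ} (h : Pos n a b) {i j : ℕ} (hj : 3 ≤ j) (hji : j ≤ i + 1)
    (hi : i + 2 ≤ n) (ha : a i = 0) (hb : b j = 0) (k : ℕ) (hk1 : j ≤ k + 1) (hk2 : k ≤ i) :
    a k = 0 ∧ b (k + 1) = 0 := by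
  apply h.split (by omega) (by omega)
  by_cases hji' : j = i + 1
  · have : k = i := by omega
    subst this
    rw [← hji', ha, hb, add_zero]
  · obtain ⟨d, hd⟩ : ∃ d, i = j + d := ⟨i - j, by omega⟩
    subst hd
    have h1 := low h.toRel h.hC d j hj (by omega)
    have h2 := h.hC (j + d) (by omega) (by omega)
    have h3 := mul_nonneg (tau_pos (j + d - 1)).le h2
    have h4 : a (j + d) + b j = 0 := by rw [ha, hb, add_zero]
    have h5 : a (j + d) + b j - tau (j + d - 1) * (a (j + d) + b (j + d + 1)) = 0 :=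
      le_antisymm (by linarith) h1.1
    by_cases hk : k = j + d
    · subst hk
      have h6 : tau (j + d - 1) * (a (j + d) + b (j + d + 1)) = 0 := by linarith
      rcases mul_eq_zero.1 h6 with h7 | h7
      · have := tau_pos (j + d - 1)
        linarith
      · exact h7
    · exact h1.2 h5 k hk1 (by omega)

/-- `S2` -/
theorem Pos.s2 {n : ℕ} {a b : ℕ → ℝ} (h : Pos n a b) {k : ℕ} (h2 : 2 ≤ k) (h3 : k + 3 ≤ n)
    (ha : a k = 0) (hb : b (k + 2) = 0) : a (k + 1) = 0 ∧ b (k + 1) = 0 := by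
  have h4 := mid h.toRel h2 h3
  rw [ha, hb, add_zero] at h4
  have h5 := h.hC k h2 (by omega)
  have h6 := h.hC (k + 1) (by omega) (by omega)
  have h7 := tau_pos k
  have h8 := tau_lt_one k
  rw [ha] at h5
  rw [show k + 1 + 1 = k + 2 from rfl, hb] at h6
  have h9 : tau k * (0 + b (k + 1)) = 0 := by
    have h10 : 0 ≤ tau k * (0 + b (k + 1)) := mul_nonneg h7.le h5
    have h11 : 0 ≤ (1 - tau k) * (a (k + 1) + 0) := mul_nonneg (by linarith) h6
    linarith
  have h10 : (1 - tau k) * (a (k + 1) + 0) = 0 := by linarith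
  constructor
  · rcases mul_eq_zero.1 h10 with h | h
    · linarith
    · linarith
  · rcases mul_eq_zero.1 h9 with h | h
    · linarith
    · linarith

/-- `S3` -/
theorem Pos.s3 {n : ℕ} {a b : ℕ → ℝ} (hn : 4 ≤ n) (h : Pos n a b) (h0 : a 1 + b 3 = 0) :
    (∀ i, 1 ≤ i → i + 2 ≤ n → a i = 0) ∧ (∀ j, 3 ≤ j → j ≤ n → b j = 0) := by
  have h1 := h.wrap
  have e1 := h.ha 1 le_rfl (by omega)
  have e2 := h.hb 3 le_rfl (by omega)
  have e3 := h.ha (n - 2) (by omega) (by omega)
  have e4 := h.hb n (by omega) le_rfl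
  have a1 : a 1 = 0 := by linarith
  have b3 : b 3 = 0 := by linarith
  have a2 : a (n - 2) = 0 := by linarith
  have bn : b n = 0 := by linarith
  have hs := fun k hk1 hk2 => h.s1 (i := n - 2) (j := 3) le_rfl (by omega) (by omega) a2 b3 k hk1 hk2
  constructor
  · intro i hi1 hi2
    by_cases hi : i = 1
    · rw [hi]; exact a1
    · exact (hs i (by omega) (by omega)).1
  · intro j hj1 hj2
    by_cases hj : j = n
    · rw [hj]; exact bn
    · obtain ⟨k, rfl⟩ : ∃ k, j = k + 1 := ⟨j - 1, by omega⟩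
      exact (hs k (by omega) (by omega)).2

end Pool.Agent.N360.JN
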